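import Pool.Agent.Helper766.M.Main

set_option autoImplicit false

open MeasureTheory Set Real Matrix
open scoped ENNReal ComplexOrder

namespace Pool.Agent.Y247.LT

open Pool.Agent.Helper766.M

/-! ### the one dimensional bathtub inequality for Fourier coefficients -/

lemma int_pos_part {r : ℝ} (hr : 0 ≤ r) :
    Integrable (fun x : ℝ => max (r ^ 2 - x ^ 2) 0) ∧
      ∫ x : ℝ, max (r ^ 2 - x ^ 2) 0 = 4 / 3 * r ^ 3 := by
  have e : (fun x : ℝ => max (r ^ 2 - x ^ 2) 0) =
      (Icc (-r) r).indicator (fun x => r ^ 2 - x ^ 2) := by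
    funext x
    by_cases hx : x ∈ Icc (-r) r
    · rw [indicator_of_mem hx]
      have h1 : x ^ 2 ≤ r ^ 2 := sq_le_sq' hx.1 hx.2
      exact max_eq_left (by linarith)
    · rw [indicator_of_notMem hx]
      have h1 : r ^ 2 ≤ x ^ 2 := by
        by_contra h
        rw [not_le] at h
        exact hx ⟨(abs_lt_of_sq_lt_sq' h hr).1.le, (abs_lt_of_sq_lt_sq' h hr).2.le⟩
      exact max_eq_right (by linarith)
  rw [e]
  constructor
  · rw [integrable_indicator_iff measurableSet_Icc]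
    exact (Continuous.continuousOn (by fun_prop)).integrableOn_compact isCompact_Icc
  · rw [integral_indicator measurableSet_Icc, integral_Icc_eq_integral_Ioc,
      ← intervalIntegral.integral_of_le (by linarith), intervalIntegral.integral_sub (by simp)
        (Continuous.intervalIntegrable (by fun_prop) _ _), intervalIntegral.integral_const,
      integral_pow]
    simp only [smul_eq_mul]
    ring

lemma cell {r ξ h : ℝ} (hh : 0 < h) :
    max (r ^ 2 - (ξ ^ 2 + h ^ 2 / 3)) 0 ≤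
      (2 * h)⁻¹ * ∫ x in Ioc (ξ - h) (ξ + h), max (r ^ 2 - x ^ 2) 0 := by
  have h1 : ∫ x in Ioc (ξ - h) (ξ + h), (r ^ 2 - x ^ 2) = 2 * h * (r ^ 2 - (ξ ^ 2 + h ^ 2 / 3)) := by
    rw [← intervalIntegral.integral_of_le (by linarith), intervalIntegral.integral_sub (by simp)
        (Continuous.intervalIntegrable (by fun_prop) _ _), intervalIntegral.integral_const,
      integral_pow]
    simp only [smul_eq_mul]
    ring
  apply max_le
  · have h2 : ∫ x in Ioc (ξ - h) (ξ + h), (r ^ 2 - x ^ 2) ≤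
        ∫ x in Ioc (ξ - h) (ξ + h), max (r ^ 2 - x ^ 2) 0 := by
      apply setIntegral_mono_on
      · exact ((Continuous.integrableOn_Icc (by fun_prop))).mono_set Ioc_subset_Icc_self
      · exact ((Continuous.integrableOn_Icc (by fun_prop))).mono_set Ioc_subset_Icc_self
      · exact measurableSet_Ioc
      · intro x _
        exact le_max_left _ _
    rw [h1] at h2
    rw [inv_mul_eq_div, le_div_iff₀ (by positivity)]
    linarith
  · have : 0 ≤ ∫ x in Ioc (ξ - h) (ξ + h), max (r ^ 2 - x ^ 2) 0 :=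
      integral_nonneg fun x => le_max_right _ _
    positivity

lemma cells {r h : ℝ} (hr : 0 ≤ r) (hh : 0 < h) (F : Finset ℤ) :
    ∑ k ∈ F, max (r ^ 2 - ((2 * h * k) ^ 2 + h ^ 2 / 3)) 0 ≤ (2 * h)⁻¹ * (4 / 3 * r ^ 3) := by
  have h1 : ∀ k ∈ F, max (r ^ 2 - ((2 * h * k) ^ 2 + h ^ 2 / 3)) 0 ≤
      (2 * h)⁻¹ * ∫ x in Ioc (2 * h * k - h) (2 * h * k + h), max (r ^ 2 - x ^ 2) 0 :=
    fun k _ => cell hh
  refine (Finset.sum_le_sum h1).trans ?_
  rw [← Finset.mul_sum]
  refine mul_le_mul_of_nonneg_left ?_ (by positivity)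
  have hdis : Pairwise (Function.onFun Disjoint fun k : ℤ => Ioc (2 * h * k - h) (2 * h * k + h)) := by
    have h2 := Set.pairwise_disjoint_Ioc_add_zsmul (-h) (2 * h)
    have e : (fun k : ℤ => Ioc (2 * h * (k : ℝ) - h) (2 * h * k + h)) =
        fun n : ℤ => Ioc (-h + n • (2 * h)) (-h + (n + 1) • (2 * h)) := by
      funext k
      congr 1
      · rw [zsmul_eq_mul]; ring
      · rw [zsmul_eq_mul]; push_cast; ring
    rw [e]
    exact h2
  have hi := (int_pos_part hr).1
  rw [← integral_biUnion_finset F (fun _ _ => measurableSet_Ioc) (fun i _ j _ hij => hdis hij)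
    (fun _ _ => hi.integrableOn), ← (int_pos_part hr).2]
  exact setIntegral_le_integral hi (Filter.Eventually.of_forall fun x => le_max_right _ _)

/-- the one dimensional inequality -/
lemma bath {L R : ℝ} (hL : 0 < L) (hR : 0 < R) (F : Finset ℤ) (q : ℤ → ℝ)
    (h0 : ∀ k ∈ F, 0 ≤ q k) (h1 : ∀ k ∈ F, q k ≤ L / R) :
    π ^ 2 / (3 * L ^ 2) * (∑ k ∈ F, q k) ^ 3 ≤
      ∑ k ∈ F, ((2 * π * k / R) ^ 2 + (π / R) ^ 2 / 3) * q k := by
  obtain ⟨s, hs⟩ : ∃ s, s = ∑ k ∈ F, q k := ⟨_, rfl⟩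
  have hpi := pi_pos
  have hs0 : 0 ≤ s := by rw [hs]; exact Finset.sum_nonneg h0
  obtain ⟨r, hr⟩ : ∃ r, r = π * s / L := ⟨_, rfl⟩
  have hr0 : 0 ≤ r := by rw [hr]; positivity
  have hc := cells hr0 (show 0 < π / R by positivity) F
  have e1 : ∀ k : ℤ, (2 * π * (k:ℝ) / R) ^ 2 = (2 * (π / R) * k) ^ 2 := fun k => by ring
  have h2 : ∑ k ∈ F, (r ^ 2 - ((2 * π * (k:ℝ) / R) ^ 2 + (π / R) ^ 2 / 3)) * q k ≤
      L / R * ((2 * (π / R))⁻¹ * (4 / 3 * r ^ 3)) := by
    calc ∑ k ∈ F, (r ^ 2 - ((2 * π * (k:ℝ) / R) ^ 2 + (π / R) ^ 2 / 3)) * q k ≤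
        ∑ k ∈ F, L / R * max (r ^ 2 - ((2 * (π / R) * k) ^ 2 + (π / R) ^ 2 / 3)) 0 := by
          refine Finset.sum_le_sum fun k hk => ?_
          rw [← e1, mul_comm (L / R)]
          exact mul_le_mul (le_max_left _ _) (h1 k hk) (h0 k hk) (le_max_right _ _)
      _ ≤ _ := by
          rw [← Finset.mul_sum]
          exact mul_le_mul_of_nonneg_left hc (by positivity)
  have h3 : ∑ k ∈ F, (r ^ 2 - ((2 * π * (k:ℝ) / R) ^ 2 + (π / R) ^ 2 / 3)) * q k =
      r ^ 2 * s - ∑ k ∈ F, ((2 * π * (k:ℝ) / R) ^ 2 + (π / R) ^ 2 / 3) * q k := by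
    rw [hs, Finset.mul_sum, ← Finset.sum_sub_distrib]
    exact Finset.sum_congr rfl fun k _ => by ring
  rw [h3] at h2
  rw [← hs]
  have h4 : r ^ 2 * s - L / R * ((2 * (π / R))⁻¹ * (4 / 3 * r ^ 3)) =
      π ^ 2 / (3 * L ^ 2) * s ^ 3 := by
    rw [hr]
    field_simp
    ring
  linarith

/-! ### positive matrices with bounded diagonal blocks -/

lemma mat {n : ℕ} {κ : Type*} [Fintype κ] [DecidableEq κ] (b : Fin n → κ) (G : CM n)
    (hG : G.PosSemidef) (m a : ℝ) (e : κ → ℝ) (hm : 0 ≤ m)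
    (hB : ∀ (k : κ) (c : Fin n → ℂ), (∀ i, b i ≠ k → c i = 0) →
      (star c ⬝ᵥ (G *ᵥ c)).re ≤ m * ∑ i, ‖c i‖ ^ 2)
    (hq : ∀ q : κ → ℝ, (∀ k, 0 ≤ q k) → (∀ k, q k ≤ m) → a * (∑ k, q k) ^ 3 ≤ ∑ k, e k * q k) :
    a * (G * G * G).trace.re ≤ ∑ i, e (b i) * (G i i).re := by
  obtain ⟨U, l, hU, hl, hGU⟩ := A_err_spec G hG
  have hform : ∀ c : Fin n → ℂ, (star c ⬝ᵥ (G *ᵥ c)).re =
      ∑ j, l j * ‖∑ i, star (U i j) * c i‖ ^ 2 := by
    intro c
    have h1 : star c ⬝ᵥ (G *ᵥ c) = ∑ j, (l j : ℂ) * ((‖∑ i, star (U i j) * c i‖ ^ 2 : ℝ) : ℂ) := by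
      have h2 : ∀ j, (star U *ᵥ c) j = ∑ i, star (U i j) * c i := by
        intro j
        rw [Matrix.mulVec, dotProduct]
        rfl
      rw [hGU, ← Matrix.mulVec_mulVec, ← Matrix.mulVec_mulVec, Matrix.dotProduct_mulVec,
        ]
      have h3 : star c ᵥ* U = star (star U *ᵥ c) := by
        rw [Matrix.star_mulVec]
        congr 1
        exact (Matrix.conjTranspose_conjTranspose U).symm
      rw [h3, dotProduct]
      refine Finset.sum_congr rfl fun j _ => ?_
      rw [Matrix.mulVec_diagonal, Pi.star_apply, h2]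
      have h4 : star (∑ i, star (U i j) * c i) * (∑ i, star (U i j) * c i) =
          ((‖∑ i, star (U i j) * c i‖ ^ 2 : ℝ) : ℂ) := by
        push_cast
        exact Complex.conj_mul' _
      rw [← h4]
      ring
    rw [h1, Complex.re_sum]
    refine Finset.sum_congr rfl fun j _ => ?_
    rw [← Complex.ofReal_mul, Complex.ofReal_re]
  have hdiag : ∀ i, (G i i).re = ∑ j, l j * ‖U i j‖ ^ 2 := by
    intro i
    rw [hGU, Matrix.mul_apply, Complex.re_sum]
    refine Finset.sum_congr rfl fun j _ => ?_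
    rw [Matrix.mul_diagonal, Matrix.star_apply]
    have h4 : U i j * star (U i j) = ((‖U i j‖ ^ 2 : ℝ) : ℂ) := by
      push_cast
      exact Complex.mul_conj' _
    rw [mul_right_comm, h4, ← Complex.ofReal_mul, Complex.ofReal_re, mul_comm]
  have hcol : ∀ j, ∑ i, ‖U i j‖ ^ 2 = 1 := by
    intro j
    have h2 : star U * U = 1 := Matrix.mem_unitaryGroup_iff'.mp hU
    have h3 : (star U * U) j j = 1 := by rw [h2]; simp
    rw [Matrix.mul_apply] at h3
    have h4 : ∑ i, (star U) j i * U i j = ((∑ i, ‖U i j‖ ^ 2 : ℝ) : ℂ) := by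
      push_cast
      refine Finset.sum_congr rfl fun i _ => ?_
      rw [Matrix.star_apply]
      exact Complex.conj_mul' _
    rw [h4] at h3
    exact_mod_cast h3
  have htr : (G * G * G).trace.re = ∑ j, l j ^ 3 := by
    rw [hGU]
    exact A_err_trace U l hU
  have hPb : ∀ j k, l j * ∑ i, (if b i = k then ‖U i j‖ ^ 2 else 0) ≤ m := by
    intro j k
    obtain ⟨P, hP⟩ : ∃ P, P = ∑ i, (if b i = k then ‖U i j‖ ^ 2 else 0) := ⟨_, rfl⟩
    have hP0 : 0 ≤ P := by
      rw [hP]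
      exact Finset.sum_nonneg fun i _ => by split_ifs <;> positivity
    rw [← hP]
    have h1 := hB k (fun i => if b i = k then U i j else 0) (fun i hi => by simp [hi])
    rw [hform] at h1
    have h2 : ∑ i, ‖(if b i = k then U i j else 0 : ℂ)‖ ^ 2 = P := by
      rw [hP]
      refine Finset.sum_congr rfl fun i _ => ?_
      split_ifs <;> simp
    rw [h2] at h1
    have h3 : ∑ i, star (U i j) * (if b i = k then U i j else 0 : ℂ) = (P : ℂ) := by
      rw [hP]
      push_cast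
      refine Finset.sum_congr rfl fun i _ => ?_
      split_ifs
      · push_cast
        exact Complex.conj_mul' _
      · simp
    have h4 : l j * P ^ 2 ≤ m * P := by
      refine le_trans ?_ h1
      refine le_trans ?_ (Finset.single_le_sum
        (f := fun j' => l j' * ‖∑ i, star (U i j') * (if b i = k then U i j else 0 : ℂ)‖ ^ 2)
        (fun j' _ => mul_nonneg (hl j') (by positivity)) (Finset.mem_univ j))
      beta_reduce
      rw [h3, Complex.norm_real, Real.norm_eq_abs, sq_abs]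
    rcases hP0.eq_or_lt with h5 | h5
    · rw [← h5, mul_zero]; exact hm
    · by_contra h6
      rw [not_le] at h6
      nlinarith
  have hmain : ∀ j, a * l j ^ 3 ≤ ∑ i, e (b i) * (l j * ‖U i j‖ ^ 2) := by
    intro j
    have h1 := hq (fun k => l j * ∑ i, (if b i = k then ‖U i j‖ ^ 2 else 0))
      (fun k => mul_nonneg (hl j) (Finset.sum_nonneg fun i _ => by split_ifs <;> positivity))
      (hPb j)
    have h2 : ∑ k, l j * ∑ i, (if b i = k then ‖U i j‖ ^ 2 else 0) = l j := by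
      rw [← Finset.mul_sum, Finset.sum_comm]
      simp only [Finset.sum_ite_eq, Finset.mem_univ, if_true]
      rw [hcol, mul_one]
    have h3 : ∑ k, e k * (l j * ∑ i, (if b i = k then ‖U i j‖ ^ 2 else 0)) =
        ∑ i, e (b i) * (l j * ‖U i j‖ ^ 2) := by
      simp only [Finset.mul_sum]
      rw [Finset.sum_comm]
      refine Finset.sum_congr rfl fun i _ => ?_
      rw [Finset.sum_eq_single (b i)]
      · simp
      · intro k _ hk
        rw [if_neg (Ne.symm hk)]; simp
      · intro h; exact absurd (Finset.mem_univ _) h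
    rw [h2, h3] at h1
    exact h1
  rw [htr, Finset.mul_sum]
  refine (Finset.sum_le_sum fun j _ => hmain j).trans ?_
  rw [Finset.sum_comm]
  refine Finset.sum_le_sum fun i _ => ?_
  rw [← Finset.mul_sum, hdiag]

end Pool.Agent.Y247.LT
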