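import Pool.Agent.Y247.LT.Bath

set_option autoImplicit false

open MeasureTheory Set Real Matrix Filter Topology
open scoped ENNReal ComplexOrder

namespace Pool.Agent.Y247.LT

open Pool.Agent.Helper766.M

/-- the exponential of frequency `m` on a circle of length `R` -/
noncomputable def ee (R : ℝ) (m : ℤ) (x : ℝ) : ℂ :=
  Complex.exp (((-(2 * π * m / R) * x : ℝ) : ℂ) * Complex.I)

lemma ee_norm (R : ℝ) (m : ℤ) (x : ℝ) : ‖ee R m x‖ = 1 := Complex.norm_exp_ofReal_mul_I _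

lemma ee_cont (R : ℝ) (m : ℤ) : Continuous (ee R m) := by
  unfold ee
  fun_prop

lemma ee_deriv (R : ℝ) (m : ℤ) (x : ℝ) :
    HasDerivAt (ee R m) (-(((2 * π * m / R : ℝ) : ℂ) * Complex.I) * ee R m x) x := by
  have h1 : HasDerivAt (fun x : ℝ => ((-(2 * π * m / R) * x : ℝ) : ℂ) * Complex.I)
      (((-(2 * π * m / R) * 1 : ℝ) : ℂ) * Complex.I) x :=
    (HasDerivAt.ofReal_comp ((hasDerivAt_id x).const_mul (-(2 * π * m / R)))).mul_const _
  have h2 := h1.cexp
  unfold ee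
  convert h2 using 1
  push_cast
  ring

/-- the Fourier coefficients -/
noncomputable def cf (R : ℝ) (f : ℝ → ℂ) (m : ℤ) : ℂ :=
  (((√R)⁻¹ : ℝ) : ℂ) * ∫ x, f x * ee R m x

lemma pars {R : ℝ} (hR : 0 < R) {f : ℝ → ℂ} (hf : Continuous f)
    (h0 : ∀ x, R / 2 ≤ |x| → f x = 0) :
    HasSum (fun m : ℤ => ‖cf R f m‖ ^ 2) (∫ x, ‖f x‖ ^ 2) := by
  have hab : -(R / 2) < R / 2 := by linarith
  have hT : R / 2 - -(R / 2) = R := by ring
  have hcs : HasCompactSupport f := by
    refine HasCompactSupport.intro (isCompact_Icc (a := -(R / 2)) (b := R / 2)) fun x hx => ?_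
    apply h0
    by_contra h
    rw [not_le, abs_lt] at h
    exact hx ⟨h.1.le, h.2.le⟩
  have hL2 : MemLp f 2 (volume.restrict (Ioc (-(R / 2)) (R / 2))) :=
    (hf.memLp_of_hasCompactSupport hcs).restrict _
  have h1 := hasSum_sq_fourierCoeffOn hab hL2
  have hsupp : ∀ (g : ℝ → ℂ), Function.support (fun x => f x * g x) ⊆ Ioc (-(R / 2)) (R / 2) := by
    intro g x hx
    by_contra h
    apply hx
    have : f x = 0 := by
      apply h0
      by_contra h2
      rw [not_le, abs_lt] at h2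
      exact h ⟨h2.1, h2.2.le⟩
    simp [this]
  have h2 : ∀ m : ℤ, ‖cf R f m‖ ^ 2 = R * ‖fourierCoeffOn hab f m‖ ^ 2 := by
    intro m
    have e1 : fourierCoeffOn hab f m = (R⁻¹ : ℝ) • ∫ x, f x * ee R m x := by
      rw [fourierCoeffOn_eq_integral, ← intervalIntegral.integral_eq_integral_of_support_subset
        (hsupp (ee R m)), hT, one_div]
      congr 1
      apply intervalIntegral.integral_congr
      intro x _
      beta_reduce
      rw [smul_eq_mul, mul_comm]
      congr 1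
      rw [fourier_coe_apply, ee]
      congr 1
      push_cast
      ring
    rw [e1, cf, norm_mul, norm_smul, Complex.norm_real, Real.norm_eq_abs, Real.norm_eq_abs,
      abs_of_nonneg (by positivity), abs_of_nonneg (by positivity), mul_pow, mul_pow, inv_pow,
      Real.sq_sqrt hR.le]
    field_simp
  simp only [h2]
  have h3 := h1.mul_left R
  have h4 : ∫ x, ‖f x‖ ^ 2 = R * (R / 2 - -(R / 2))⁻¹ • ∫ x in -(R / 2)..R / 2, ‖f x‖ ^ 2 := by
    rw [hT, smul_eq_mul, ← mul_assoc, mul_inv_cancel₀ hR.ne', one_mul]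
    symm
    apply intervalIntegral.integral_eq_integral_of_support_subset
    intro x hx
    by_contra h
    apply hx
    have : f x = 0 := by
      apply h0
      by_contra h2
      rw [not_le, abs_lt] at h2
      exact h ⟨h2.1, h2.2.le⟩
    simp [this]
  rw [h4]
  exact h3
lemma lint_sq {α : Type*} [MeasurableSpace α] {μ : Measure α} {f : α → ℂ}
    (hf : Integrable (fun x => ‖f x‖ ^ 2) μ) :
    ENNReal.ofReal (∫ x, ‖f x‖ ^ 2 ∂μ) = ∫⁻ x, ‖f x‖ₑ ^ 2 ∂μ := by
  rw [ofReal_integral_eq_lintegral_ofReal hf (Eventually.of_forall fun x => by positivity)]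
  refine lintegral_congr fun x => ?_
  rw [ENNReal.ofReal_pow (norm_nonneg _), ofReal_norm]

lemma int_sq_of_cc {α : Type*} [TopologicalSpace α] [MeasurableSpace α] [OpensMeasurableSpace α]
    {μ : Measure α} [IsFiniteMeasureOnCompacts μ] {f : α → ℂ} (hf : Continuous f)
    (hc : HasCompactSupport f) : Integrable (fun x => ‖f x‖ ^ 2) μ := by
  refine Continuous.integrable_of_hasCompactSupport (by fun_prop) ?_
  have : (fun x => ‖f x‖ ^ 2) = (fun z : ℂ => ‖z‖ ^ 2) ∘ f := rfl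
  rw [this]
  exact hc.comp_left (by simp)

lemma cc_of {R : ℝ} {f : ℝ → ℂ} (h0 : ∀ x, R / 2 ≤ |x| → f x = 0) : HasCompactSupport f := by
  refine HasCompactSupport.intro (isCompact_Icc (a := -(R / 2)) (b := R / 2)) fun x hx => ?_
  apply h0
  by_contra h
  rw [not_le, abs_lt] at h
  exact hx ⟨h.1.le, h.2.le⟩

/-- Bessel's inequality -/
lemma bes {R : ℝ} (hR : 0 < R) {f : ℝ → ℂ} (hf : Continuous f)
    (h0 : ∀ x, R / 2 ≤ |x| → f x = 0) (F : Finset ℤ) :
    ∑ m ∈ F, ‖cf R f m‖ₑ ^ 2 ≤ ∫⁻ x, ‖f x‖ₑ ^ 2 := by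
  have h1 := pars hR hf h0
  rw [← lint_sq (int_sq_of_cc hf (cc_of h0))]
  have h2 : ∑ m ∈ F, ‖cf R f m‖ₑ ^ 2 = ENNReal.ofReal (∑ m ∈ F, ‖cf R f m‖ ^ 2) := by
    rw [ENNReal.ofReal_sum_of_nonneg fun _ _ => by positivity]
    refine Finset.sum_congr rfl fun m _ => ?_
    rw [ENNReal.ofReal_pow (norm_nonneg _), ofReal_norm]
  rw [h2]
  exact ENNReal.ofReal_le_ofReal (sum_le_hasSum F (fun _ _ => by positivity) h1)

/-- Parseval's identity as a limit -/
lemma pars_lim {R : ℝ} (hR : 0 < R) {f : ℝ → ℂ} (hf : Continuous f)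
    (h0 : ∀ x, R / 2 ≤ |x| → f x = 0) :
    Tendsto (fun K : ℕ => ∑ m ∈ Finset.Icc (-(K : ℤ)) K, ‖cf R f m‖ₑ ^ 2) atTop
      (𝓝 (∫⁻ x, ‖f x‖ₑ ^ 2)) := by
  have h1 := pars hR hf h0
  rw [← lint_sq (int_sq_of_cc hf (cc_of h0))]
  have h2 : ∀ K : ℕ, ∑ m ∈ Finset.Icc (-(K : ℤ)) K, ‖cf R f m‖ₑ ^ 2 =
      ENNReal.ofReal (∑ m ∈ Finset.Icc (-(K : ℤ)) K, ‖cf R f m‖ ^ 2) := by
    intro K
    rw [ENNReal.ofReal_sum_of_nonneg fun _ _ => by positivity]
    refine Finset.sum_congr rfl fun m _ => ?_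
    rw [ENNReal.ofReal_pow (norm_nonneg _), ofReal_norm]
  simp only [h2]
  refine (ENNReal.continuous_ofReal.tendsto _).comp ?_
  have h3 : Tendsto (fun F : Finset ℤ => ∑ m ∈ F, ‖cf R f m‖ ^ 2) atTop (𝓝 (∫ x, ‖f x‖ ^ 2)) := h1
  refine h3.comp ?_
  refine tendsto_atTop_finset_of_monotone ?_ ?_
  · intro K K' hK
    apply Finset.Icc_subset_Icc <;> simpa using hK
  · intro m
    refine ⟨m.natAbs, ?_⟩
    rw [Finset.mem_Icc]
    omega

/-- the coefficients of the derivative -/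
lemma cf_deriv {R : ℝ} {f f' : ℝ → ℂ} (hf : ∀ x, HasDerivAt f (f' x) x)
    (hf' : Continuous f') (hc : HasCompactSupport f) (hc' : HasCompactSupport f') (m : ℤ) :
    cf R f' m = ((2 * π * m / R : ℝ) : ℂ) * Complex.I * cf R f m := by
  have hfc : Continuous f := continuous_iff_continuousAt.2 fun x => (hf x).continuousAt
  have h1 := integral_mul_deriv_eq_deriv_mul_of_integrable (u := ee R m) (v := f)
    (u' := fun x => -(((2 * π * m / R : ℝ) : ℂ) * Complex.I) * ee R m x) (v' := f')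
    (fun x _ => ee_deriv R m x) (fun x _ => hf x)
    (((ee_cont R m).mul hf').integrable_of_hasCompactSupport hc'.mul_left)
    (((continuous_const.mul (ee_cont R m)).mul hfc).integrable_of_hasCompactSupport hc.mul_left)
    (((ee_cont R m).mul hfc).integrable_of_hasCompactSupport hc.mul_left)
  unfold cf
  have h2 : ∫ x, f' x * ee R m x = ∫ x, ee R m x * f' x := by
    congr 1; funext x; ring
  have h3 : ∫ x, -(((2 * π * m / R : ℝ) : ℂ) * Complex.I) * ee R m x * f x =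
      -(((2 * π * m / R : ℝ) : ℂ) * Complex.I) * ∫ x, f x * ee R m x := by
    rw [← integral_const_mul]
    congr 1; funext x; ring
  rw [h2, h1, h3]
  ring

/-- Cauchy-Schwarz for the coefficients of a function with small support -/
lemma cf_cs {R L : ℝ} (hR : 0 < R) (hL : 0 ≤ L) {f : ℝ → ℂ} (hf : Continuous f)
    (hv : volume {x | f x ≠ 0} ≤ ENNReal.ofReal L) (m : ℤ) :
    ‖cf R f m‖ₑ ^ 2 ≤ ENNReal.ofReal (L / R) * ∫⁻ x, ‖f x‖ₑ ^ 2 := by
  have hS : MeasurableSet {x | f x ≠ 0} := (isOpen_ne_fun hf continuous_const).measurableSet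
  have h1 : ‖∫ x, f x * ee R m x‖ₑ ≤ ∫⁻ x, ‖f x‖ₑ := by
    refine (enorm_integral_le_lintegral_enorm _).trans (le_of_eq ?_)
    refine lintegral_congr fun x => ?_
    rw [enorm_mul, ← ofReal_norm (ee R m x), ee_norm, ENNReal.ofReal_one, mul_one]
  have h2 : ∫⁻ x, ‖f x‖ₑ ≤ ENNReal.ofReal L ^ (1 / 2 : ℝ) * (∫⁻ x, ‖f x‖ₑ ^ 2) ^ (1 / 2 : ℝ) := by
    have h3 := ENNReal.lintegral_mul_le_Lp_mul_Lq (volume : Measure ℝ)
      (Real.HolderConjugate.two_two) (f := {x | f x ≠ 0}.indicator 1) (g := fun x => ‖f x‖ₑ)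
      ((measurable_one.indicator hS).aemeasurable) hf.enorm.measurable.aemeasurable
    have e1 : ∫⁻ x, ({x | f x ≠ 0}.indicator (1 : ℝ → ℝ≥0∞) * fun x => ‖f x‖ₑ) x = ∫⁻ x, ‖f x‖ₑ := by
      refine lintegral_congr fun x => ?_
      by_cases hx : f x = 0
      · simp [hx]
      · rw [Pi.mul_apply, indicator_of_mem (show x ∈ {x | f x ≠ 0} from hx)]; simp
    have e2 : ∫⁻ x, {x | f x ≠ 0}.indicator (1 : ℝ → ℝ≥0∞) x ^ (2 : ℝ) = volume {x | f x ≠ 0} := by
      rw [← lintegral_indicator_one hS]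
      refine lintegral_congr fun x => ?_
      by_cases hx : x ∈ {x | f x ≠ 0}
      · rw [indicator_of_mem hx]; simp
      · rw [indicator_of_notMem hx]; simp
    have e3 : ∫⁻ x, ‖f x‖ₑ ^ (2 : ℝ) = ∫⁻ x, ‖f x‖ₑ ^ 2 := by
      refine lintegral_congr fun x => ?_
      exact ENNReal.rpow_two _
    rw [e1, e2, e3] at h3
    refine h3.trans ?_
    gcongr
  have h3 : ‖cf R f m‖ₑ ^ 2 = ENNReal.ofReal (R⁻¹) * ‖∫ x, f x * ee R m x‖ₑ ^ 2 := by
    rw [cf, enorm_mul, mul_pow, ← ofReal_norm ((((√R)⁻¹ : ℝ) : ℂ)), Complex.norm_real,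
      Real.norm_eq_abs, abs_of_nonneg (by positivity), ← ENNReal.ofReal_pow (by positivity), inv_pow,
      Real.sq_sqrt hR.le]
  rw [h3]
  have h4 : ‖∫ x, f x * ee R m x‖ₑ ^ 2 ≤ ENNReal.ofReal L * ∫⁻ x, ‖f x‖ₑ ^ 2 := by
    calc ‖∫ x, f x * ee R m x‖ₑ ^ 2 ≤
        (ENNReal.ofReal L ^ (1 / 2 : ℝ) * (∫⁻ x, ‖f x‖ₑ ^ 2) ^ (1 / 2 : ℝ)) ^ 2 := by
          gcongr; exact h1.trans h2
      _ = _ := by
          rw [mul_pow, ← ENNReal.rpow_natCast, ← ENNReal.rpow_natCast, ← ENNReal.rpow_mul,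
            ← ENNReal.rpow_mul]
          norm_num
  calc ENNReal.ofReal (R⁻¹) * ‖∫ x, f x * ee R m x‖ₑ ^ 2 ≤
      ENNReal.ofReal (R⁻¹) * (ENNReal.ofReal L * ∫⁻ x, ‖f x‖ₑ ^ 2) := by gcongr
    _ = _ := by
      rw [← mul_assoc, ← ENNReal.ofReal_mul (by positivity)]
      congr 2
      field_simp

/-! ### integrals over the first variable -/

lemma par {k : ℕ} {g : (Fin (k + 1) → ℝ) → ℂ} (hg : ContDiff ℝ 1 g) (hc : HasCompactSupport g)
    {e : ℝ → ℂ} (he : Continuous e) (he1 : ∀ x, ‖e x‖ ≤ 1) :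
    ContDiff ℝ 1 (fun y : Fin k → ℝ => ∫ x, g (Fin.cons x y : Fin (k + 1) → ℝ) * e x) ∧
      HasCompactSupport (fun y : Fin k → ℝ => ∫ x, g (Fin.cons x y : Fin (k + 1) → ℝ) * e x) ∧
      ∀ (y : Fin k → ℝ) (j : Fin k),
        fderiv ℝ (fun y : Fin k → ℝ => ∫ x, g (Fin.cons x y : Fin (k + 1) → ℝ) * e x) y
          (Pi.single j 1) =
        ∫ x, fderiv ℝ g (Fin.cons x y : Fin (k + 1) → ℝ) (Pi.single j.succ 1) * e x := by
  have hg' : Continuous (fderiv ℝ g) := hg.continuous_fderiv (by norm_num)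
  obtain ⟨M, hM⟩ : ∃ M : ℝ, ∀ z ∈ tsupport g, ‖z‖ ≤ M := by
    obtain ⟨M, hM⟩ := hc.isCompact.isBounded.exists_norm_le
    exact ⟨M, hM⟩
  have h0 : ∀ z, M < ‖z‖ → g z = 0 := fun z hz =>
    image_eq_zero_of_notMem_tsupport fun h => absurd (hM z h) (not_le.2 hz)
  have h0' : ∀ z, M < ‖z‖ → fderiv ℝ g z = 0 := fun z hz => by
    by_contra h
    have := support_fderiv_subset ℝ (f := g) (show z ∈ Function.support (fderiv ℝ g) from h)
    exact absurd (hM z this) (not_le.2 hz)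
  obtain ⟨C, hC⟩ := hg'.bounded_above_of_compact_support (hc.fderiv ℝ)
  obtain ⟨C0, hC0⟩ := hg.continuous.bounded_above_of_compact_support hc
  have hCn : 0 ≤ C := (norm_nonneg _).trans (hC 0)
  have hC0n : 0 ≤ C0 := (norm_nonneg _).trans (hC0 0)
  have hx : ∀ (x : ℝ) (y : Fin k → ℝ), |x| ≤ ‖(Fin.cons x y : Fin (k + 1) → ℝ)‖ := fun x y => by
    have := norm_le_pi_norm (Fin.cons x y : Fin (k + 1) → ℝ) 0
    simpa using this
  have hy : ∀ (x : ℝ) (y : Fin k → ℝ), ‖y‖ ≤ ‖(Fin.cons x y : Fin (k + 1) → ℝ)‖ := fun x y => by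
    refine (pi_norm_le_iff_of_nonneg (norm_nonneg _)).2 fun j => ?_
    have := norm_le_pi_norm (Fin.cons x y : Fin (k + 1) → ℝ) j.succ
    simpa using this
  have hcons : ∀ y : Fin k → ℝ, Continuous fun x : ℝ => (Fin.cons x y : Fin (k + 1) → ℝ) := by
    intro y
    refine continuous_pi fun i => ?_
    refine Fin.cases ?_ (fun j => ?_) i
    · exact continuous_id
    · exact continuous_const
  have hcons' : ∀ x : ℝ, Continuous fun y : Fin k → ℝ => (Fin.cons x y : Fin (k + 1) → ℝ) :=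
    fun x => (slice_reg_cd x).continuous
  obtain ⟨J, hJ⟩ : ∃ J, J = slice_reg_L k := ⟨_, rfl⟩
  let F' : (Fin k → ℝ) → ℝ → (Fin k → ℝ) →L[ℝ] ℂ := fun y x =>
    (e x) • ((fderiv ℝ g (Fin.cons x y : Fin (k + 1) → ℝ)).comp J)
  let bound : ℝ → ℝ := (Icc (-M) M).indicator fun _ => C * ‖J‖
  have hbound : ∀ y x, ‖F' y x‖ ≤ bound x := by
    intro y x
    by_cases hxM : x ∈ Icc (-M) M
    · show _ ≤ (Icc (-M) M).indicator (fun _ => C * ‖J‖) x
      rw [indicator_of_mem hxM]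
      calc ‖F' y x‖ = ‖e x‖ * ‖(fderiv ℝ g (Fin.cons x y : Fin (k + 1) → ℝ)).comp J‖ := norm_smul _ _
        _ ≤ 1 * (C * ‖J‖) := by
            gcongr
            · exact he1 x
            · exact (ContinuousLinearMap.opNorm_comp_le _ _).trans (by gcongr; exact hC _)
        _ = C * ‖J‖ := one_mul _
    · show _ ≤ (Icc (-M) M).indicator (fun _ => C * ‖J‖) x
      rw [indicator_of_notMem hxM]
      have h1 : M < |x| := by
        by_contra h
        rw [not_lt, abs_le] at h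
        exact hxM h
      show ‖(e x) • ((fderiv ℝ g (Fin.cons x y : Fin (k + 1) → ℝ)).comp J)‖ ≤ 0
      refine le_of_eq ((norm_smul _ _).trans ?_)
      rw [h0' _ (h1.trans_le (hx x y)), ContinuousLinearMap.zero_comp, norm_zero, mul_zero]
  have hbi : Integrable bound := by
    show Integrable ((Icc (-M) M).indicator fun _ => C * ‖J‖)
    rw [integrable_indicator_iff measurableSet_Icc]
    exact integrableOn_const isCompact_Icc.measure_lt_top.ne
  have hF'c : ∀ y, Continuous (F' y) := fun y =>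
    he.smul ((hg'.comp (hcons y)).clm_comp continuous_const)
  have hFc : ∀ y : Fin k → ℝ, Continuous fun x => g (Fin.cons x y : Fin (k + 1) → ℝ) * e x := fun y =>
    (hg.continuous.comp (hcons y)).mul he
  have hFi : ∀ y : Fin k → ℝ, Integrable fun x => g (Fin.cons x y : Fin (k + 1) → ℝ) * e x := by
    intro y
    refine (hFc y).integrable_of_hasCompactSupport ?_
    refine HasCompactSupport.intro (isCompact_Icc (a := -M) (b := M)) fun x hxM => ?_
    have h1 : M < |x| := by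
      by_contra h
      rw [not_lt, abs_le] at h
      exact hxM h
    rw [h0 _ (h1.trans_le (hx x y)), zero_mul]
  have hd : ∀ y x, HasFDerivAt (fun y : Fin k → ℝ => g (Fin.cons x y : Fin (k + 1) → ℝ) * e x)
      (F' y x) y := by
    intro y x
    have h1 : HasFDerivAt g (fderiv ℝ g (Fin.cons x y : Fin (k + 1) → ℝ))
        (Fin.cons x y : Fin (k + 1) → ℝ) := (hg.differentiable (by norm_num) _).hasFDerivAt
    have h2 : HasFDerivAt (fun y : Fin k → ℝ => g (Fin.cons x y : Fin (k + 1) → ℝ))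
        ((fderiv ℝ g (Fin.cons x y : Fin (k + 1) → ℝ)).comp J) y := by
      rw [hJ]
      exact HasFDerivAt.comp (g := g) y h1 (slice_reg_fd x y)
    exact h2.mul_const (e x)
  have hmain : ∀ y, HasFDerivAt (fun y : Fin k → ℝ => ∫ x, g (Fin.cons x y : Fin (k + 1) → ℝ) * e x)
      (∫ x, F' y x) y := by
    intro y
    exact hasFDerivAt_integral_of_dominated_of_fderiv_le (s := univ) univ_mem
      (Eventually.of_forall fun y' => (hFc y').aestronglyMeasurable) (hFi y)
      (hF'c y).aestronglyMeasurable (Eventually.of_forall fun x y' _ => hbound y' x) hbi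
      (Eventually.of_forall fun x y' _ => hd y' x)
  refine ⟨?_, ?_, ?_⟩
  · rw [contDiff_one_iff_fderiv]
    refine ⟨fun y => (hmain y).differentiableAt, ?_⟩
    have h1 : fderiv ℝ (fun y : Fin k → ℝ => ∫ x, g (Fin.cons x y : Fin (k + 1) → ℝ) * e x) =
        fun y => ∫ x, F' y x := funext fun y => (hmain y).fderiv
    rw [h1]
    refine continuous_of_dominated (bound := bound) (fun y => (hF'c y).aestronglyMeasurable)
      (fun y => Eventually.of_forall fun x => hbound y x) hbi (Eventually.of_forall fun x => ?_)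
    show Continuous fun y => (e x) • ((fderiv ℝ g (Fin.cons x y : Fin (k + 1) → ℝ)).comp J)
    have h2 : Continuous fun y => ((fderiv ℝ g (Fin.cons x y : Fin (k + 1) → ℝ)).comp J) :=
      (hg'.comp (hcons' x)).clm_comp continuous_const
    exact h2.const_smul (e x)
  · refine HasCompactSupport.intro (isCompact_closedBall (0 : Fin k → ℝ) M) fun y hyM => ?_
    rw [mem_closedBall_zero_iff, not_le] at hyM
    have : ∀ x, g (Fin.cons x y : Fin (k + 1) → ℝ) * e x = 0 := fun x => by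
      rw [h0 _ (hyM.trans_le (hy x y)), zero_mul]
    simp only [this, integral_zero]
  · intro y j
    rw [(hmain y).fderiv, ContinuousLinearMap.integral_apply
      (hbi.mono' (hF'c y).aestronglyMeasurable (Eventually.of_forall fun x => hbound y x))]
    congr 1
    funext x
    show (e x • ((fderiv ℝ g (Fin.cons x y : Fin (k + 1) → ℝ)).comp J)) (Pi.single j 1) = _
    rw [_root_.smul_apply, ContinuousLinearMap.comp_apply, smul_eq_mul, mul_comm, hJ]
    congr 2
    funext i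
    refine Fin.cases ?_ (fun l => ?_) i
    · show (0 : ℝ) = _
      rw [Pi.single_eq_of_ne (Fin.succ_ne_zero j).symm]
    · show (Pi.single j (1 : ℝ) : Fin k → ℝ) l = _
      by_cases h : l = j
      · subst h
        rw [Pi.single_eq_same, Pi.single_eq_same]
      · rw [Pi.single_eq_of_ne h, Pi.single_eq_of_ne (fun h' => h (Fin.succ_injective _ h'))]

end Pool.Agent.Y247.LT
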