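import Pool.Agent.Helper766.M.Main

set_option autoImplicit false

open MeasureTheory Set Real Matrix
open scoped ENNReal ComplexOrder

namespace Pool.Agent.Y247.LT

open Pool.Agent.Helper766.M

/-- The semiclassical constant `d / (d + 2) * (2π)² / ω_d ^ (2 / d)`. -/
noncomputable def Kcl (d : ℕ) : ℝ :=
  d / (d + 2) * ((2 * Real.pi) ^ 2 /
    (volume (Metric.ball (0 : EuclideanSpace ℝ (Fin d)) 1)).toReal ^ ((2 : ℝ) / d))

/-- the optimal value `K(c)` -/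
noncomputable def Kc (c : ℝ) (d : ℕ) : ℝ := d / (d + 2) * (c * (1 + d / 2)) ^ (-(2 / (d : ℝ)))

lemma Kc_scale {θ c : ℝ} (hθ : 0 < θ) (hc : 0 < c) {d : ℕ} (hd : 1 ≤ d) :
    Kc (θ * c) d = θ ^ (-(2 / (d : ℝ))) * Kc c d := by
  unfold Kc
  rw [mul_assoc, Real.mul_rpow hθ.le (by positivity)]
  ring

lemma vol_ball {d : ℕ} (hd : 1 ≤ d) :
    (volume (Metric.ball (0 : EuclideanSpace ℝ (Fin d)) 1)).toReal =
      √π ^ d / Gamma ((d : ℝ) / 2 + 1) := by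
  haveI : Nonempty (Fin d) := ⟨⟨0, hd⟩⟩
  rw [EuclideanSpace.volume_ball]
  simp only [ENNReal.ofReal_one, one_pow, one_mul, Fintype.card_fin]
  rw [ENNReal.toReal_ofReal]
  have : 0 < Gamma ((d : ℝ) / 2 + 1) := Gamma_pos_of_pos (by positivity)
  positivity

lemma Kc_Lcl {d : ℕ} (hd : 1 ≤ d) : Kc (Lcl 1 d) d = Kcl d := by
  unfold Kc Kcl
  rw [vol_ball hd]
  congr 1
  have hd0 : (0:ℝ) < d := by exact_mod_cast hd
  have hg : 0 < Gamma ((d : ℝ) / 2 + 1) := Gamma_pos_of_pos (by positivity)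
  have hpi := pi_pos
  have e1 : Lcl 1 d * (1 + d / 2) = √π ^ d / Gamma ((d : ℝ) / 2 + 1) / (2 * π) ^ (d : ℝ) := by
    unfold Lcl
    have h2 : Gamma (1 + 1 : ℝ) = 1 := by
      rw [Gamma_add_one one_ne_zero, Gamma_one, mul_one]
    have h3 : Gamma (1 + 1 + (d : ℝ) / 2) = ((d : ℝ) / 2 + 1) * Gamma ((d : ℝ) / 2 + 1) := by
      rw [← Gamma_add_one (by positivity)]
      congr 1; ring
    have h4 : (4 * π) ^ ((d : ℝ) / 2) = 2 ^ (d : ℝ) * √π ^ d := by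
      rw [Real.mul_rpow (by norm_num) hpi.le, show (4 : ℝ) = 2 ^ (2 : ℝ) by norm_num,
        ← Real.rpow_mul (by norm_num), ← Real.rpow_natCast (√π), Real.sqrt_eq_rpow,
        ← Real.rpow_mul hpi.le]
      congr 2 <;> ring
    have h5 : (2 * π) ^ (d : ℝ) = 2 ^ (d : ℝ) * (√π ^ d * √π ^ d) := by
      rw [Real.mul_rpow (by norm_num) hpi.le]
      congr 1
      rw [← mul_pow, Real.mul_self_sqrt hpi.le, Real.rpow_natCast]
    rw [h2, h3, h4, h5]
    have h6 : 0 < √π ^ d := by positivity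
    have h7 : (0:ℝ) < 2 ^ (d : ℝ) := by positivity
    field_simp
    ring
  rw [e1, Real.rpow_neg (by positivity), Real.div_rpow (by positivity) (by positivity),
    ← Real.rpow_mul (by positivity), show (d : ℝ) * (2 / d) = 2 by field_simp, inv_div]
  congr 1
  exact_mod_cast Real.rpow_natCast (2 * π) 2

lemma Kc_opt {c : ℝ} (hc : 0 < c) {d : ℕ} (hd : 1 ≤ d) :
    ∃ t : ℝ, 0 < t ∧ 0 ≤ t - c * t ^ (1 + (d : ℝ) / 2) ∧
      t - c * t ^ (1 + (d : ℝ) / 2) = Kc c d := by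
  have hd0 : (0:ℝ) < d := by exact_mod_cast hd
  set t : ℝ := (c * (1 + d / 2)) ^ (-(2 / (d : ℝ))) with ht
  have hb : 0 < c * (1 + (d : ℝ) / 2) := by positivity
  have ht0 : 0 < t := Real.rpow_pos_of_pos hb _
  have h1 : t ^ ((d : ℝ) / 2) = (c * (1 + d / 2))⁻¹ := by
    rw [ht, ← Real.rpow_mul hb.le, show -(2 / (d : ℝ)) * (d / 2) = -1 by field_simp,
      Real.rpow_neg_one]
  have h2 : t - c * t ^ (1 + (d : ℝ) / 2) = Kc c d := by
    rw [Real.rpow_add ht0, Real.rpow_one, h1]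
    unfold Kc
    rw [← ht]
    field_simp
    ring
  refine ⟨t, ht0, ?_, h2⟩
  rw [h2]
  unfold Kc
  positivity

lemma rho_meas {n N : ℕ} {u : Fin N → (Fin n → ℝ) → ℂ} (hu : ∀ i, ContDiff ℝ 1 (u i)) :
    Measurable (rho u) := by
  unfold rho
  refine Finset.measurable_sum _ fun i _ => ?_
  exact ((hu i).continuous.measurable.enorm).pow_const 2

lemma rho_le {n N : ℕ} {u : Fin N → (Fin n → ℝ) → ℂ} (hu : ∀ i, ContDiff ℝ 1 (u i))
    (hc : ∀ i, HasCompactSupport (u i)) {q : ℝ} (hq : 0 < q) :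
    ∫⁻ x, rho u x ^ q ≠ ⊤ := by
  classical
  obtain ⟨K, hK, hKu⟩ : ∃ K : Set (Fin n → ℝ), IsCompact K ∧ ∀ i, ∀ x ∉ K, u i x = 0 :=
    ⟨⋃ i, tsupport (u i), isCompact_iUnion fun i => hc i, fun i x hx => by
      have : x ∉ tsupport (u i) := fun h => hx (mem_iUnion.2 ⟨i, h⟩)
      exact image_eq_zero_of_notMem_tsupport this⟩
  have hb : ∀ i, ∃ C : ℝ, ∀ x, ‖u i x‖ ≤ C := fun i =>
    (hc i).exists_bound_of_continuous (hu i).continuous
  choose C hC using hb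
  have hC0 : ∀ i, 0 ≤ C i := fun i => (norm_nonneg _).trans (hC i 0)
  have h1 : ∀ x, rho u x ^ q ≤ K.indicator (fun _ => (∑ i, ENNReal.ofReal (C i) ^ 2) ^ q) x := by
    intro x
    by_cases hx : x ∈ K
    · rw [indicator_of_mem hx]
      refine ENNReal.rpow_le_rpow ?_ hq.le
      unfold rho
      refine Finset.sum_le_sum fun i _ => ?_
      gcongr
      rw [← ofReal_norm]
      exact ENNReal.ofReal_le_ofReal (hC i x)
    · rw [indicator_of_notMem hx]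
      have : rho u x = 0 := by
        unfold rho
        refine Finset.sum_eq_zero fun i _ => ?_
        rw [hKu i x hx]; simp
      rw [this, ENNReal.zero_rpow_of_pos hq]
  refine ne_top_of_le_ne_top ?_ (lintegral_mono h1)
  rw [lintegral_indicator hK.measurableSet, setLIntegral_const]
  refine ENNReal.mul_ne_top ?_ hK.measure_lt_top.ne
  refine ENNReal.rpow_ne_top_of_nonneg hq.le ?_
  refine ENNReal.sum_ne_top.2 fun i _ => ?_
  exact ENNReal.pow_ne_top ENNReal.ofReal_ne_top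

/-- From a dual inequality to the kinetic energy inequality. -/
lemma dual {α : Type*} [MeasurableSpace α] {μ : Measure α} {d : ℕ} (hd : 1 ≤ d) {c : ℝ}
    (hc : 0 < c) (ρ : α → ℝ≥0∞) (T : ℝ≥0∞)
    (hfin : ∫⁻ x, ρ x ^ (1 + 2 / (d : ℝ)) ∂μ ≠ ⊤)
    (h : ∀ t : ℝ, 0 < t → ∫⁻ x, (ENNReal.ofReal t * ρ x ^ (2 / (d : ℝ))) * ρ x ∂μ ≤ T +
      ENNReal.ofReal c * ∫⁻ x, (ENNReal.ofReal t * ρ x ^ (2 / (d : ℝ))) ^ (1 + (d : ℝ) / 2) ∂μ) :
    ENNReal.ofReal (Kc c d) * ∫⁻ x, ρ x ^ (1 + 2 / (d : ℝ)) ∂μ ≤ T := by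
  have hd0 : (0:ℝ) < d := by exact_mod_cast hd
  obtain ⟨t, ht, ht0, htK⟩ := Kc_opt hc hd
  have h1 := h t ht
  have e1 : ∀ x, (ENNReal.ofReal t * ρ x ^ (2 / (d : ℝ))) * ρ x =
      ENNReal.ofReal t * ρ x ^ (1 + 2 / (d : ℝ)) := by
    intro x
    rw [mul_assoc]
    congr 1
    conv_lhs => rw [← ENNReal.rpow_one (ρ x), ← ENNReal.rpow_mul, one_mul]
    rw [← ENNReal.rpow_add_of_nonneg _ _ (by positivity) zero_le_one, add_comm]
  have e2 : ∀ x, (ENNReal.ofReal t * ρ x ^ (2 / (d : ℝ))) ^ (1 + (d : ℝ) / 2) =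
      ENNReal.ofReal (t ^ (1 + (d : ℝ) / 2)) * ρ x ^ (1 + 2 / (d : ℝ)) := by
    intro x
    rw [ENNReal.mul_rpow_of_nonneg _ _ (by positivity), ← ENNReal.rpow_mul,
      ENNReal.ofReal_rpow_of_nonneg ht.le (by positivity)]
    congr 2
    field_simp
    ring
  simp only [e1, e2] at h1
  rw [lintegral_const_mul' _ _ ENNReal.ofReal_ne_top,
    lintegral_const_mul' _ _ ENNReal.ofReal_ne_top, ← mul_assoc,
    ← ENNReal.ofReal_mul hc.le] at h1
  rw [← htK, ENNReal.ofReal_sub _ (by positivity), ENNReal.sub_mul (fun _ _ => hfin)]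
  exact tsub_le_iff_right.2 h1

/-- the quadratic form of the Gram matrix -/
lemma gram_form {n N : ℕ} (u : Fin N → (Fin n → ℝ) → ℂ) (hu : ∀ i, Continuous (u i))
    (hc : ∀ i, HasCompactSupport (u i)) (x : Fin N → ℂ) :
    star x ⬝ᵥ (Gram u *ᵥ x) = ((∫ z, ‖∑ i, star (x i) * u i z‖ ^ 2 : ℝ) : ℂ) := by
  have h1 : star x ⬝ᵥ (Gram u *ᵥ x) =
      ∫ z, ∑ i, ∑ j, (star (x i)) * ((u i z * starRingEnd ℂ (u j z)) * x j) := by
    rw [integral_finsetSum]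
    · simp only [dotProduct, mulVec, Pi.star_apply]
      refine Finset.sum_congr rfl fun i _ => ?_
      rw [integral_finsetSum]
      · rw [Finset.mul_sum]
        refine Finset.sum_congr rfl fun j _ => ?_
        rw [integral_const_mul, integral_mul_const]
        rfl
      · intro j _
        exact ((Gram_psd_int u hu hc i j).mul_const _).const_mul _
    · intro i _
      refine integrable_finsetSum _ fun j _ => ?_
      exact ((Gram_psd_int u hu hc i j).mul_const _).const_mul _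
  have h2 : ∀ z, ∑ i, ∑ j, (star (x i)) * ((u i z * starRingEnd ℂ (u j z)) * x j) =
      ((‖∑ i, star (x i) * u i z‖ ^ 2 : ℝ) : ℂ) := by
    intro z
    rw [← Complex.normSq_eq_norm_sq, Complex.normSq_eq_conj_mul_self, mul_comm, map_sum,
      Finset.sum_mul_sum]
    refine Finset.sum_congr rfl fun i _ => Finset.sum_congr rfl fun j _ => ?_
    rw [map_mul]
    have : starRingEnd ℂ (star (x j)) = x j := Complex.conj_conj (x j)
    rw [this]
    ring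
  rw [h1]
  simp_rw [h2]
  rw [integral_complex_ofReal]

/-- the sub-orthonormality condition in terms of the Gram matrix -/
lemma gram_psd {n N : ℕ} (u : Fin N → (Fin n → ℝ) → ℂ) (hu : ∀ i, Continuous (u i))
    (hc : ∀ i, HasCompactSupport (u i))
    (h : ∀ c : Fin N → ℂ, ∫ x, ‖∑ i, c i * u i x‖ ^ 2 ≤ ∑ i, ‖c i‖ ^ 2) :
    (1 - Gram u).PosSemidef := by
  refine Matrix.PosSemidef.of_dotProduct_mulVec_nonneg ?_ ?_
  · exact Matrix.isHermitian_one.sub (Gram_psd u hu hc).isHermitian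
  · intro x
    rw [Matrix.sub_mulVec, Matrix.one_mulVec, dotProduct_sub, gram_form u hu hc]
    have h1 : star x ⬝ᵥ x = ((∑ i, ‖x i‖ ^ 2 : ℝ) : ℂ) := by
      rw [dotProduct]
      push_cast
      refine Finset.sum_congr rfl fun i _ => ?_
      rw [Pi.star_apply]
      exact Complex.conj_mul' (x i)
    rw [h1, ← Complex.ofReal_sub]
    have h2 := h (star x)
    simp only [Pi.star_apply, norm_star] at h2
    have h3 : 0 ≤ ∑ i, ‖x i‖ ^ 2 - ∫ z, ‖∑ i, star (x i) * u i z‖ ^ 2 := sub_nonneg.2 h2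
    exact_mod_cast h3

lemma consts {d : ℕ} (hd : 1 ≤ d) :
    Kc (2 / √3 * Lcl 1 d) d = (3 / 4) ^ (1 / (d : ℝ)) * Kcl d := by
  have hL : 0 < Lcl 1 d := by
    unfold Lcl
    have h1 : 0 < Gamma (1 + 1 : ℝ) := Gamma_pos_of_pos (by norm_num)
    have h2 : 0 < Gamma (1 + 1 + (d : ℝ) / 2) := Gamma_pos_of_pos (by positivity)
    have := pi_pos
    positivity
  rw [Kc_scale (by positivity) hL hd, Kc_Lcl hd]
  congr 1
  have hd0 : (0:ℝ) < d := by exact_mod_cast hd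
  have h3 : (2 / √3 : ℝ) = (3 / 4 : ℝ) ^ (-(1 / 2) : ℝ) := by
    rw [Real.rpow_neg (by norm_num), ← Real.sqrt_eq_rpow, Real.sqrt_div (by norm_num),
      show (4 : ℝ) = 2 ^ 2 by norm_num, Real.sqrt_sq (by norm_num), inv_div]
  rw [h3, ← Real.rpow_mul (by norm_num)]
  congr 1
  field_simp

/-- the magnetic kinetic energy inequality for sub-orthonormal families -/
theorem main1 {d N : ℕ} (hd : 1 ≤ d) (u : Fin N → (Fin d → ℝ) → ℂ)
    (A : (Fin d → ℝ) → (Fin d → ℝ)) (hu : ∀ i, ContDiff ℝ 1 (u i))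
    (hc : ∀ i, HasCompactSupport (u i)) (hA : Measurable A)
    (hG : ∀ c : Fin N → ℂ, ∫ x, ‖∑ i, c i * u i x‖ ^ 2 ≤ ∑ i, ‖c i‖ ^ 2) :
    ENNReal.ofReal ((3 / 4) ^ (1 / (d : ℝ)) * Kcl d) *
      ∫⁻ x, rho u x ^ (1 + 2 / (d : ℝ)) ≤ Tmag A u := by
  obtain ⟨n, rfl⟩ : ∃ n, d = n + 1 := ⟨d - 1, by omega⟩
  have hL : 0 < Lcl 1 (n + 1) := by
    unfold Lcl
    have h1 : 0 < Gamma (1 + 1 : ℝ) := Gamma_pos_of_pos (by norm_num)
    have h2 : 0 < Gamma (1 + 1 + ((n + 1 : ℕ) : ℝ) / 2) := Gamma_pos_of_pos (by positivity)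
    have := pi_pos
    positivity
  rw [← consts hd]
  refine dual hd (by positivity) (rho u) (Tmag A u) (rho_le hu hc (by positivity)) ?_
  intro t ht
  have h1 := magnetic_Q u A (fun x => ENNReal.ofReal t * rho u x ^ (2 / ((n + 1 : ℕ) : ℝ))) hu hc hA
    (measurable_const.mul ((rho_meas hu).pow_const _))
    (gram_psd u (fun i => (hu i).continuous) hc hG)
  rw [const_QQ] at h1
  have h2 : 1 + ((n + 1 : ℕ) : ℝ) / 2 = ((n : ℝ) + 3) / 2 := by
    push_cast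
    ring
  rw [h2]
  exact h1

/-- the energy of a multiple -/
lemma Tmag_smul {n N : ℕ} {s : ℝ} (hs : 0 ≤ s) (A : (Fin n → ℝ) → (Fin n → ℝ))
    (w : Fin N → (Fin n → ℝ) → ℂ) (hw : ∀ i, ContDiff ℝ 1 (w i)) :
    Tmag A (fun i x => (s : ℂ) * w i x) = ENNReal.ofReal (s ^ 2) * Tmag A w := by
  have hen : ‖(s : ℂ)‖ₑ ^ 2 = ENNReal.ofReal (s ^ 2) := by
    rw [← ofReal_norm_eq_enorm, Complex.norm_real, Real.norm_eq_abs, abs_of_nonneg hs,
      ← ENNReal.ofReal_pow hs]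
  have heT : ∀ i x, eT A (fun x => (s : ℂ) * w i x) x = ENNReal.ofReal (s ^ 2) * eT A (w i) x := by
    intro i x
    unfold eT
    rw [Finset.mul_sum]
    refine Finset.sum_congr rfl fun j _ => ?_
    have hd : DifferentiableAt ℝ (w i) x := ((hw i).differentiable one_ne_zero) x
    have hf : fderiv ℝ (fun x => (s : ℂ) * w i x) x (Pi.single j 1) =
        (s : ℂ) * fderiv ℝ (w i) x (Pi.single j 1) := by
      rw [(hd.hasFDerivAt.const_mul (s : ℂ)).fderiv]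
      rfl
    rw [hf]
    have he : (s : ℂ) * fderiv ℝ (w i) x (Pi.single j 1) -
        Complex.I * ((A x j : ℝ) : ℂ) * ((s : ℂ) * w i x) =
        (s : ℂ) * (fderiv ℝ (w i) x (Pi.single j 1) -
          Complex.I * ((A x j : ℝ) : ℂ) * w i x) := by ring
    rw [he, enorm_mul, mul_pow, hen]
  unfold Tmag
  rw [Finset.mul_sum]
  refine Finset.sum_congr rfl fun i _ => ?_
  simp only [heT]
  rw [lintegral_const_mul' _ _ ENNReal.ofReal_ne_top]

lemma rho_smul {n N : ℕ} {s : ℝ} (hs : 0 ≤ s) (w : Fin N → (Fin n → ℝ) → ℂ) (x : Fin n → ℝ) :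
    rho (fun i x => (s : ℂ) * w i x) x = ENNReal.ofReal (s ^ 2) * rho w x := by
  unfold rho
  rw [Finset.mul_sum]
  refine Finset.sum_congr rfl fun i _ => ?_
  rw [enorm_mul, mul_pow, ← ofReal_norm_eq_enorm (s : ℂ), Complex.norm_real, Real.norm_eq_abs,
    abs_of_nonneg hs, ← ENNReal.ofReal_pow hs]

/-- the homogeneous form -/
theorem main2 {d N : ℕ} (hd : 1 ≤ d) (u : Fin N → (Fin d → ℝ) → ℂ)
    (A : (Fin d → ℝ) → (Fin d → ℝ)) (hu : ∀ i, ContDiff ℝ 1 (u i))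
    (hc : ∀ i, HasCompactSupport (u i)) (hA : Measurable A) {Λ : ℝ} (hΛ : 0 < Λ)
    (hG : ∀ c : Fin N → ℂ, ∫ x, ‖∑ i, c i * u i x‖ ^ 2 ≤ Λ * ∑ i, ‖c i‖ ^ 2) :
    ENNReal.ofReal ((3 / 4) ^ (1 / (d : ℝ)) * Kcl d) *
      ∫⁻ x, rho u x ^ (1 + 2 / (d : ℝ)) ≤ ENNReal.ofReal (Λ ^ (2 / (d : ℝ))) * Tmag A u := by
  have hd0 : (0:ℝ) < d := by exact_mod_cast hd
  set s : ℝ := √(Λ⁻¹) with hs
  have hs0 : 0 ≤ s := Real.sqrt_nonneg _
  have hs2 : s ^ 2 = Λ⁻¹ := Real.sq_sqrt (by positivity)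
  have h := main1 hd (fun i x => (s : ℂ) * u i x) A (fun i => contDiff_const.mul (hu i))
    (fun i => (hc i).mul_left (f := fun _ => (s : ℂ))) hA (by
      intro c
      have e : ∀ x, ‖∑ i, c i * ((s : ℂ) * u i x)‖ ^ 2 = s ^ 2 * ‖∑ i, c i * u i x‖ ^ 2 := by
        intro x
        have : ∑ i, c i * ((s : ℂ) * u i x) = (s : ℂ) * ∑ i, c i * u i x := by
          rw [Finset.mul_sum]
          exact Finset.sum_congr rfl fun i _ => by ring
        rw [this, norm_mul, mul_pow, Complex.norm_real, Real.norm_eq_abs, abs_of_nonneg hs0]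
      simp only [e]
      rw [integral_const_mul, hs2]
      calc Λ⁻¹ * ∫ x, ‖∑ i, c i * u i x‖ ^ 2 ≤ Λ⁻¹ * (Λ * ∑ i, ‖c i‖ ^ 2) := by
            gcongr; exact hG c
        _ = ∑ i, ‖c i‖ ^ 2 := by field_simp)
  rw [Tmag_smul hs0 A u hu] at h
  have e1 : ∀ x, rho (fun i x => (s : ℂ) * u i x) x ^ (1 + 2 / (d : ℝ)) =
      ENNReal.ofReal (Λ⁻¹ ^ (1 + 2 / (d : ℝ))) * rho u x ^ (1 + 2 / (d : ℝ)) := by
    intro x
    rw [rho_smul hs0, hs2, ENNReal.mul_rpow_of_nonneg _ _ (by positivity),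
      ENNReal.ofReal_rpow_of_nonneg (by positivity) (by positivity)]
  simp only [e1] at h
  rw [lintegral_const_mul' _ _ ENNReal.ofReal_ne_top, hs2] at h
  have h2 := mul_le_mul_right h (ENNReal.ofReal (Λ ^ (1 + 2 / (d : ℝ))))
  have e2 : ENNReal.ofReal (Λ ^ (1 + 2 / (d : ℝ))) * ENNReal.ofReal (Λ⁻¹ ^ (1 + 2 / (d : ℝ))) = 1 := by
    rw [← ENNReal.ofReal_mul (by positivity), ← Real.mul_rpow hΛ.le (by positivity),
      mul_inv_cancel₀ hΛ.ne', Real.one_rpow, ENNReal.ofReal_one]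
  have e3 : ENNReal.ofReal (Λ ^ (1 + 2 / (d : ℝ))) * ENNReal.ofReal (Λ⁻¹) =
      ENNReal.ofReal (Λ ^ (2 / (d : ℝ))) := by
    rw [← ENNReal.ofReal_mul (by positivity), Real.rpow_add hΛ, Real.rpow_one]
    congr 1
    field_simp
  calc ENNReal.ofReal ((3 / 4) ^ (1 / (d : ℝ)) * Kcl d) * ∫⁻ x, rho u x ^ (1 + 2 / (d : ℝ))
      = (ENNReal.ofReal (Λ ^ (1 + 2 / (d : ℝ))) * ENNReal.ofReal (Λ⁻¹ ^ (1 + 2 / (d : ℝ)))) *
        (ENNReal.ofReal ((3 / 4) ^ (1 / (d : ℝ)) * Kcl d) *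
          ∫⁻ x, rho u x ^ (1 + 2 / (d : ℝ))) := by rw [e2, one_mul]
    _ = ENNReal.ofReal (Λ ^ (1 + 2 / (d : ℝ))) * (ENNReal.ofReal ((3 / 4) ^ (1 / (d : ℝ)) * Kcl d) *
        (ENNReal.ofReal (Λ⁻¹ ^ (1 + 2 / (d : ℝ))) * ∫⁻ x, rho u x ^ (1 + 2 / (d : ℝ)))) := by ring
    _ ≤ ENNReal.ofReal (Λ ^ (1 + 2 / (d : ℝ))) * (ENNReal.ofReal (Λ⁻¹) * Tmag A u) := h2
    _ = _ := by rw [← mul_assoc, e3]

end Pool.Agent.Y247.LT
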