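import Pool.Agent.Y247.LT.Four
import Pool.Agent.Y247.LT.Mag

set_option autoImplicit false

open MeasureTheory Set Real Matrix Filter Topology
open scoped ENNReal ComplexOrder

namespace Pool.Agent.Y247.LT

open Pool.Agent.Helper766.M

/-- the inequality for `γ = 3/2` after scaling -/
theorem PP_scale {n N : ℕ} {a : ℝ} (ha0 : 0 < a) (w : Fin N → (Fin n → ℝ) → ℂ)
    (A : (Fin n → ℝ) → (Fin n → ℝ)) (V : (Fin n → ℝ) → ℝ≥0∞)
    (hw : ∀ i, ContDiff ℝ 1 (w i)) (hc : ∀ i, HasCompactSupport (w i)) (hA : Measurable A)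
    (hV : Measurable V) :
    ∫⁻ x, V x * rho w x ≤ Tmag A w +
      (ENNReal.ofReal (a ^ 2 / 3 * (Gram w * Gram w * Gram w).trace.re) +
        ENNReal.ofReal (a⁻¹ * cc n) * ∫⁻ x, V x ^ (((n : ℝ) + 3) / 2)) := by
  have h := PP_all n
  obtain ⟨s, hs⟩ : ∃ s : ℝ, s = √a := ⟨_, rfl⟩
  have hs0 : 0 ≤ s := by rw [hs]; exact Real.sqrt_nonneg a
  have hss : s * s = a := by rw [hs]; exact Real.mul_self_sqrt ha0.le
  have hss2 : s ^ 2 = a := by rw [sq]; exact hss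
  have hat : ENNReal.ofReal a ≠ ⊤ := ENNReal.ofReal_ne_top
  have h1 := h N (fun i x => (s : ℂ) * w i x) A V (fun i => contDiff_const.mul (hw i))
    (fun i => (hc i).mul_left (f := fun _ => (s : ℂ))) hA hV
  have hrho : ∀ x, rho (fun i x => (s : ℂ) * w i x) x = ENNReal.ofReal a * rho w x := by
    intro x
    rw [rho_smul hs0, hss2]
  have hT : Tmag A (fun i x => (s : ℂ) * w i x) = ENNReal.ofReal a * Tmag A w := by
    rw [Tmag_smul hs0 A w hw, hss2]
  have hGr : Gram (fun i x => (s : ℂ) * w i x) = ((a : ℝ) : ℂ) • Gram w := by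
    ext i j
    simp only [Gram, Matrix.of_apply, Matrix.smul_apply, smul_eq_mul]
    rw [← integral_const_mul]
    congr 1
    funext x
    rw [map_mul, Complex.conj_ofReal, ← hss]
    push_cast
    ring
  have hL : ∫⁻ x, V x * rho (fun i x => (s : ℂ) * w i x) x =
      ENNReal.ofReal a * ∫⁻ x, V x * rho w x := by
    rw [← lintegral_const_mul' _ _ hat]
    congr 1
    funext x
    rw [hrho]
    ring
  have htr : (Gram (fun i x => (s : ℂ) * w i x) * Gram (fun i x => (s : ℂ) * w i x) *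
      Gram (fun i x => (s : ℂ) * w i x)).trace.re = a ^ 3 * (Gram w * Gram w * Gram w).trace.re := by
    rw [hGr]
    simp only [Matrix.smul_mul, Matrix.mul_smul, Matrix.trace_smul, smul_eq_mul]
    rw [← mul_assoc, ← mul_assoc, ← Complex.ofReal_mul, ← Complex.ofReal_mul,
      Complex.re_ofReal_mul]
    ring
  rw [hL, hT, htr] at h1
  have hinv : ENNReal.ofReal a⁻¹ * ENNReal.ofReal a = 1 := by
    rw [← ENNReal.ofReal_mul (inv_nonneg.2 ha0.le), inv_mul_cancel₀ ha0.ne', ENNReal.ofReal_one]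
  have h3 : a⁻¹ * (1 / 3 * (a ^ 3 * (Gram w * Gram w * Gram w).trace.re)) =
      a ^ 2 / 3 * (Gram w * Gram w * Gram w).trace.re := by
    field_simp
  obtain ⟨X, hX⟩ : ∃ X, X = ∫⁻ x, V x * rho w x := ⟨_, rfl⟩
  obtain ⟨Y, hY⟩ : ∃ Y, Y = ∫⁻ x, V x ^ (((n : ℝ) + 3) / 2) := ⟨_, rfl⟩
  obtain ⟨T, hT⟩ : ∃ T, T = Tmag A w := ⟨_, rfl⟩
  obtain ⟨g, hg⟩ : ∃ g, g = (Gram w * Gram w * Gram w).trace.re := ⟨_, rfl⟩
  rw [← hX, ← hY, ← hT, ← hg] at h1
  rw [← hg] at h3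
  rw [← hX, ← hY, ← hT, ← hg]
  have hai : 0 ≤ a⁻¹ := inv_nonneg.2 ha0.le
  calc X = ENNReal.ofReal a⁻¹ * (ENNReal.ofReal a * X) := by rw [← mul_assoc, hinv, one_mul]
    _ ≤ ENNReal.ofReal a⁻¹ * (ENNReal.ofReal a * T + ENNReal.ofReal (1 / 3 * (a ^ 3 * g)) +
        ENNReal.ofReal (cc n) * Y) := mul_le_mul_right h1 _
    _ = ENNReal.ofReal a⁻¹ * ENNReal.ofReal a * T +
        ENNReal.ofReal a⁻¹ * ENNReal.ofReal (1 / 3 * (a ^ 3 * g)) +
        ENNReal.ofReal a⁻¹ * ENNReal.ofReal (cc n) * Y := by ring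
    _ = T + (ENNReal.ofReal (a ^ 2 / 3 * g) + ENNReal.ofReal (a⁻¹ * cc n) * Y) := by
        rw [hinv, one_mul, ← ENNReal.ofReal_mul hai, ← ENNReal.ofReal_mul hai, h3, add_assoc]

lemma eT_meas {n : ℕ} {A : (Fin n → ℝ) → (Fin n → ℝ)} (hA : Measurable A)
    {f : (Fin n → ℝ) → ℂ} (hf : ContDiff ℝ 1 f) : Measurable (eT A f) := by
  unfold eT
  refine Finset.measurable_fun_sum _ fun j _ => ?_
  have h1 : Measurable (fun x => fderiv ℝ f x (Pi.single j 1)) :=
    ((hf.continuous_fderiv (by norm_num)).clm_apply continuous_const).measurable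
  have h5 : Measurable (fun x => ((A x j : ℝ) : ℂ)) :=
    Complex.measurable_ofReal.comp ((measurable_pi_apply j).comp hA)
  exact ((h1.sub ((h5.const_mul Complex.I).mul hf.continuous.measurable)).enorm).pow_const 2

lemma cons_meas {k : ℕ} {f : (Fin (k + 1) → ℝ) → ℝ≥0∞} (hf : Measurable f) :
    Measurable fun p : ℝ × (Fin k → ℝ) => f (Fin.cons p.1 p.2 : Fin (k + 1) → ℝ) := by
  refine hf.comp ?_
  rw [measurable_pi_iff]
  intro i
  refine Fin.cases ?_ (fun j => ?_) i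
  · exact measurable_fst
  · exact (measurable_pi_apply j).comp measurable_snd

lemma lint_cons' {k : ℕ} {f : (Fin (k + 1) → ℝ) → ℝ≥0∞} (hf : Measurable f) :
    (∫⁻ y : Fin k → ℝ, ∫⁻ x : ℝ, f (Fin.cons x y : Fin (k + 1) → ℝ)) = ∫⁻ z, f z := by
  rw [(lint_cons f hf).1]
  exact lintegral_lintegral_swap
    (f := fun (y : Fin k → ℝ) (x : ℝ) => f (Fin.cons x y : Fin (k + 1) → ℝ))
    (((cons_meas hf).comp measurable_swap).aemeasurable)

/-- the vector potential `(0, A(y))` -/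
def lift {k : ℕ} (A : (Fin k → ℝ) → (Fin k → ℝ)) (z : Fin (k + 1) → ℝ) : Fin (k + 1) → ℝ :=
  Fin.cons 0 (A (fun j => z j.succ))

lemma lift_meas {k : ℕ} {A : (Fin k → ℝ) → (Fin k → ℝ)} (hA : Measurable A) :
    Measurable (lift A) := by
  rw [measurable_pi_iff]
  intro i
  refine Fin.cases ?_ (fun j => ?_) i
  · exact measurable_const
  · exact (measurable_pi_apply j).comp (hA.comp (measurable_pi_lambda _ fun l =>
      measurable_pi_apply l.succ))

lemma cont_cons {k : ℕ} (y : Fin k → ℝ) :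
    Continuous fun x : ℝ => (Fin.cons x y : Fin (k + 1) → ℝ) := by
  refine continuous_pi fun i => ?_
  refine Fin.cases ?_ (fun j => ?_) i
  · exact continuous_id
  · exact continuous_const

section fam

variable {k : ℕ} {g : (Fin (k + 1) → ℝ) → ℂ} {R : ℝ}

/-- the coefficient functions -/
noncomputable def vv (R : ℝ) (g : (Fin (k + 1) → ℝ) → ℂ) (m : ℤ) (y : Fin k → ℝ) : ℂ :=
  cf R (fun x => g (Fin.cons x y : Fin (k + 1) → ℝ)) m

lemma vv_reg (hg : ContDiff ℝ 1 g) (hc : HasCompactSupport g) (m : ℤ) :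
    ContDiff ℝ 1 (vv R g m) ∧ HasCompactSupport (vv R g m) ∧
      ∀ (y : Fin k → ℝ) (j : Fin k), fderiv ℝ (vv R g m) y (Pi.single j 1) =
        cf R (fun x => fderiv ℝ g (Fin.cons x y : Fin (k + 1) → ℝ) (Pi.single j.succ 1)) m := by
  obtain ⟨h1, h2, h3⟩ := par hg hc (ee_cont R m) (fun x => (ee_norm R m x).le)
  refine ⟨contDiff_const.mul h1, h2.mul_left (f := fun _ => (((√R)⁻¹ : ℝ) : ℂ)), fun y j => ?_⟩
  have h4 : vv R g m = fun y => (((√R)⁻¹ : ℝ) : ℂ) *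
      ∫ x, g (Fin.cons x y : Fin (k + 1) → ℝ) * ee R m x := rfl
  rw [h4, ((h1.differentiable one_ne_zero y).hasFDerivAt.const_mul _).fderiv]
  have h5 : ((((√R)⁻¹ : ℝ) : ℂ) • (fderiv ℝ (fun y : Fin k → ℝ =>
      ∫ x, g (Fin.cons x y : Fin (k + 1) → ℝ) * ee R m x) y)) (Pi.single j 1) =
      (((√R)⁻¹ : ℝ) : ℂ) * fderiv ℝ (fun y : Fin k → ℝ =>
      ∫ x, g (Fin.cons x y : Fin (k + 1) → ℝ) * ee R m x) y (Pi.single j 1) := rfl
  rw [h5, h3]
  rfl

/-- the part of the magnetic gradient of `g` parallel to the layers -/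
noncomputable def DD (A : (Fin k → ℝ) → (Fin k → ℝ)) (g : (Fin (k + 1) → ℝ) → ℂ) (j : Fin k)
    (y : Fin k → ℝ) (x : ℝ) : ℂ :=
  fderiv ℝ g (Fin.cons x y : Fin (k + 1) → ℝ) (Pi.single j.succ 1) -
    Complex.I * ((A y j : ℝ) : ℂ) * g (Fin.cons x y : Fin (k + 1) → ℝ)

lemma fd_zero {M : ℝ} (hM : ∀ z, M ≤ |z 0| → g z = 0) (z : Fin (k + 1) → ℝ)
    (hz : M < |z 0|) : fderiv ℝ g z = 0 := by
  have h1 : ∀ᶠ w in 𝓝 z, g w = 0 := by
    have h2 : IsOpen {w : Fin (k + 1) → ℝ | M < |w 0|} :=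
      isOpen_lt continuous_const (continuous_abs.comp (continuous_apply 0))
    filter_upwards [h2.mem_nhds hz] with w hw
    exact hM w (le_of_lt hw)
  have h3 : g =ᶠ[𝓝 z] fun _ => (0 : ℂ) := h1
  rw [h3.fderiv_eq]
  simp

variable (hR : 0 < R)

include hR in
lemma vv_bound (hg : ContDiff ℝ 1 g) (hc : HasCompactSupport g)
    {M : ℝ} (hMR : M < R / 2) (hM : ∀ z, M ≤ |z 0| → g z = 0)
    (A : (Fin k → ℝ) → (Fin k → ℝ)) (F : Finset ℤ) (y : Fin k → ℝ) :
    ∑ m ∈ F, (eT A (vv R g m) y + ENNReal.ofReal ((2 * π * m / R) ^ 2) * ‖vv R g m y‖ₑ ^ 2) ≤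
      ∫⁻ x, eT (lift A) g (Fin.cons x y : Fin (k + 1) → ℝ) := by
  have hg' : Continuous (fderiv ℝ g) := hg.continuous_fderiv (by norm_num)
  have hgc : Continuous fun x : ℝ => g (Fin.cons x y : Fin (k + 1) → ℝ) :=
    hg.continuous.comp (cont_cons y)
  have hdc : ∀ i : Fin (k + 1), Continuous fun x : ℝ =>
      fderiv ℝ g (Fin.cons x y : Fin (k + 1) → ℝ) (Pi.single i 1) := fun i =>
    (hg'.comp (cont_cons y)).clm_apply continuous_const
  have h0 : ∀ x, R / 2 ≤ |x| → g (Fin.cons x y : Fin (k + 1) → ℝ) = 0 := fun x hx =>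
    hM _ (by simpa using (hMR.le.trans hx))
  have h0' : ∀ i : Fin (k + 1), ∀ x, R / 2 ≤ |x| →
      fderiv ℝ g (Fin.cons x y : Fin (k + 1) → ℝ) (Pi.single i 1) = 0 := fun i x hx => by
    rw [fd_zero hM _ (by simpa using (hMR.trans_le hx))]
    rfl
  have hint : ∀ (f : ℝ → ℂ) (m : ℤ), Continuous f → (∀ x, R / 2 ≤ |x| → f x = 0) →
      Integrable fun x => f x * ee R m x := fun f m hf hf0 =>
    (hf.mul (ee_cont R m)).integrable_of_hasCompactSupport (cc_of hf0).mul_right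
  -- the parallel part
  have hD : ∀ (m : ℤ) (j : Fin k), fderiv ℝ (vv R g m) y (Pi.single j 1) -
      Complex.I * ((A y j : ℝ) : ℂ) * vv R g m y = cf R (DD A g j y) m := by
    intro m j
    rw [(vv_reg hg hc m).2.2 y j]
    unfold vv cf DD
    have e1 : ∀ x, (fderiv ℝ g (Fin.cons x y : Fin (k + 1) → ℝ) (Pi.single j.succ 1) -
        Complex.I * ((A y j : ℝ) : ℂ) * g (Fin.cons x y : Fin (k + 1) → ℝ)) * ee R m x =
        fderiv ℝ g (Fin.cons x y : Fin (k + 1) → ℝ) (Pi.single j.succ 1) * ee R m x -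
        Complex.I * ((A y j : ℝ) : ℂ) * (g (Fin.cons x y : Fin (k + 1) → ℝ) * ee R m x) :=
      fun x => by ring
    simp only [e1]
    rw [integral_sub (hint _ m (hdc j.succ) (h0' j.succ)) ((hint _ m hgc h0).const_mul _),
      integral_const_mul]
    ring
  have hDc : ∀ j, Continuous (DD A g j y) := fun j =>
    (hdc j.succ).sub (continuous_const.mul hgc)
  have hD0 : ∀ j x, R / 2 ≤ |x| → DD A g j y x = 0 := fun j x hx => by
    unfold DD
    rw [h0' j.succ x hx, h0 x hx, mul_zero, sub_zero]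
  -- the orthogonal part
  have hder : ∀ x, HasDerivAt (fun x : ℝ => g (Fin.cons x y : Fin (k + 1) → ℝ))
      (fderiv ℝ g (Fin.cons x y : Fin (k + 1) → ℝ) (Pi.single 0 1)) x := by
    intro x
    have h1 : HasFDerivAt g (fderiv ℝ g (Fin.cons x y : Fin (k + 1) → ℝ))
        (Fin.cons x y : Fin (k + 1) → ℝ) := (hg.differentiable (by norm_num) _).hasFDerivAt
    refine h1.comp_hasDerivAt x ?_
    rw [hasDerivAt_pi]
    intro i
    refine Fin.cases ?_ (fun j => ?_) i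
    · simp only [Fin.cons_zero, Pi.single_eq_same]
      exact hasDerivAt_id x
    · simp only [Fin.cons_succ]
      rw [Pi.single_eq_of_ne (Fin.succ_ne_zero j)]
      exact hasDerivAt_const x _
  have hX : ∀ m : ℤ, ENNReal.ofReal ((2 * π * m / R) ^ 2) * ‖vv R g m y‖ₑ ^ 2 =
      ‖cf R (fun x => fderiv ℝ g (Fin.cons x y : Fin (k + 1) → ℝ) (Pi.single 0 1)) m‖ₑ ^ 2 := by
    intro m
    rw [cf_deriv hder (hdc 0) (cc_of h0) (cc_of (h0' 0)) m, enorm_mul, mul_pow]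
    congr 1
    rw [enorm_mul, mul_pow, ← ofReal_norm Complex.I, Complex.norm_I, ENNReal.ofReal_one, one_pow,
      mul_one, ← ofReal_norm, Complex.norm_real, ← ENNReal.ofReal_pow (norm_nonneg _),
      Real.norm_eq_abs, sq_abs]
  have e1 : ∀ m : ℤ, eT A (vv R g m) y + ENNReal.ofReal ((2 * π * m / R) ^ 2) * ‖vv R g m y‖ₑ ^ 2 =
      ∑ j, ‖cf R (DD A g j y) m‖ₑ ^ 2 +
      ‖cf R (fun x => fderiv ℝ g (Fin.cons x y : Fin (k + 1) → ℝ) (Pi.single 0 1)) m‖ₑ ^ 2 := by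
    intro m
    rw [hX]
    congr 1
    unfold eT
    exact Finset.sum_congr rfl fun j _ => by rw [hD]
  simp only [e1]
  rw [Finset.sum_add_distrib, Finset.sum_comm]
  have e2 : ∀ x, eT (lift A) g (Fin.cons x y : Fin (k + 1) → ℝ) =
      ∑ j, ‖DD A g j y x‖ₑ ^ 2 +
        ‖fderiv ℝ g (Fin.cons x y : Fin (k + 1) → ℝ) (Pi.single 0 1)‖ₑ ^ 2 := by
    intro x
    unfold eT
    rw [Fin.sum_univ_succ, add_comm]
    congr 1
    simp [lift]
  simp only [e2]
  rw [lintegral_add_left (Finset.measurable_fun_sum _ fun j _ =>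
      ((hDc j).enorm.measurable).pow_const 2),
    lintegral_finsetSum _ fun j _ => ((hDc j).enorm.measurable).pow_const 2]
  refine add_le_add (Finset.sum_le_sum fun j _ => bes hR (hDc j) (hD0 j) F)
    (bes hR (hdc 0) (h0' 0) F)

end fam

end Pool.Agent.Y247.LT
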