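import Pool.Agent.Y247.LT.Red

set_option autoImplicit false

open MeasureTheory Set Real Matrix Filter Topology
open scoped ENNReal ComplexOrder

namespace Pool.Agent.Y247.LT

open Pool.Agent.Helper766.M

/-- The data: a sub-orthonormal family whose supports meet the lines in the first direction in
length at most `L` and are contained in `|x| < M`. -/
structure Data {k N : ℕ} (L M : ℝ) (u : Fin N → (Fin (k + 1) → ℝ) → ℂ) : Prop where
  cd : ∀ n, ContDiff ℝ 1 (u n)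
  cs : ∀ n, HasCompactSupport (u n)
  L0 : 0 < L
  M0 : 0 < M
  bd : ∀ n z, M ≤ |z 0| → u n z = 0
  vol : ∀ y : Fin k → ℝ, volume {x : ℝ | ∃ n, u n (Fin.cons x y : Fin (k + 1) → ℝ) ≠ 0} ≤
    ENNReal.ofReal L
  gram : ∀ c : Fin N → ℂ, ∫ x, ‖∑ i, c i * u i x‖ ^ 2 ≤ ∑ i, ‖c i‖ ^ 2

section

variable {k N : ℕ} {L M R : ℝ} {u : Fin N → (Fin (k + 1) → ℝ) → ℂ}

/-- the block bound -/
lemma block (h : Data L M u) (hR : 0 < R) (hMR : M < R / 2) (m : ℤ) (c : Fin N → ℂ) :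
    ∫ y, ‖∑ n, c n * vv R (u n) m y‖ ^ 2 ≤ L / R * ∑ n, ‖c n‖ ^ 2 := by
  have hL := h.L0
  obtain ⟨g, hg⟩ : ∃ g : (Fin (k + 1) → ℝ) → ℂ, g = fun z => ∑ n, c n * u n z := ⟨_, rfl⟩
  have hgc : ContDiff ℝ 1 g := by
    rw [hg]; exact ContDiff.sum fun n _ => contDiff_const.mul (h.cd n)
  have hgs : HasCompactSupport g := by
    have h1 : HasCompactSupport (∑ n, fun z => c n * u n z) :=
      HasCompactSupport.finset_sum fun n _ => (h.cs n).mul_left
    have h2 : g = ∑ n, fun z => c n * u n z := by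
      rw [hg]; funext z; simp
    rw [h2]; exact h1
  have hv : ∀ y, ∑ n, c n * vv R (u n) m y = vv R g m y := by
    intro y
    unfold vv cf
    have hint : ∀ n, Integrable fun x => u n (Fin.cons x y : Fin (k + 1) → ℝ) * ee R m x := by
      intro n
      refine (((h.cd n).continuous.comp (cont_cons y)).mul (ee_cont R m)).integrable_of_hasCompactSupport ?_
      refine HasCompactSupport.mul_right ?_
      exact cc_of (R := R) fun x hx => h.bd n _ (by simpa using (hMR.le.trans hx))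
    have e : ∀ x, g (Fin.cons x y : Fin (k + 1) → ℝ) * ee R m x =
        ∑ n, c n * (u n (Fin.cons x y : Fin (k + 1) → ℝ) * ee R m x) := by
      intro x
      rw [hg, Finset.sum_mul]
      exact Finset.sum_congr rfl fun n _ => by ring
    simp only [e]
    rw [integral_finsetSum _ fun n _ => (hint n).const_mul _, Finset.mul_sum]
    refine Finset.sum_congr rfl fun n _ => ?_
    rw [integral_const_mul]
    ring
  simp only [hv]
  have h1 : ∀ y, ‖vv R g m y‖ₑ ^ 2 ≤ ENNReal.ofReal (L / R) *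
      ∫⁻ x, ‖g (Fin.cons x y : Fin (k + 1) → ℝ)‖ₑ ^ 2 := by
    intro y
    refine cf_cs hR hL.le (hgc.continuous.comp (cont_cons y)) ?_ m
    refine (measure_mono ?_).trans (h.vol y)
    intro x hx
    by_contra hcon
    apply hx
    rw [hg]
    refine Finset.sum_eq_zero fun n _ => ?_
    have : u n (Fin.cons x y : Fin (k + 1) → ℝ) = 0 := by
      by_contra h2
      exact hcon ⟨n, h2⟩
    rw [this, mul_zero]
  have hvr := vv_reg hgc hgs (R := R) m
  have h2 : ENNReal.ofReal (∫ y, ‖vv R g m y‖ ^ 2) ≤ ENNReal.ofReal (L / R * ∑ n, ‖c n‖ ^ 2) := by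
    rw [lint_sq (int_sq_of_cc hvr.1.continuous hvr.2.1)]
    calc ∫⁻ y, ‖vv R g m y‖ₑ ^ 2 ≤ ∫⁻ y, ENNReal.ofReal (L / R) *
        ∫⁻ x, ‖g (Fin.cons x y : Fin (k + 1) → ℝ)‖ₑ ^ 2 := lintegral_mono h1
      _ = ENNReal.ofReal (L / R) * ∫⁻ z, ‖g z‖ₑ ^ 2 := by
          rw [lintegral_const_mul' _ _ ENNReal.ofReal_ne_top,
            lint_cons' (f := fun z => ‖g z‖ₑ ^ 2) (hgc.continuous.enorm.measurable.pow_const 2)]
      _ ≤ _ := by
          rw [← lint_sq (int_sq_of_cc hgc.continuous hgs), ← ENNReal.ofReal_mul (by positivity)]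
          apply ENNReal.ofReal_le_ofReal
          apply mul_le_mul_of_nonneg_left _ (by positivity)
          rw [hg]
          exact h.gram c
  exact (ENNReal.ofReal_le_ofReal_iff (by positivity)).1 h2

/-- the index set -/
noncomputable abbrev ix (N : ℕ) (F : Finset ℤ) : Fin (Fintype.card (Fin N × F)) ≃ Fin N × F :=
  (Fintype.equivFin (Fin N × F)).symm

/-- the family of all coefficient functions with frequencies in `F` -/
noncomputable def fam (R : ℝ) (u : Fin N → (Fin (k + 1) → ℝ) → ℂ) (F : Finset ℤ)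
    (a : Fin (Fintype.card (Fin N × F))) : (Fin k → ℝ) → ℂ :=
  vv R (u (ix N F a).1) (ix N F a).2

lemma sum_ix {β : Type*} [AddCommMonoid β] (F : Finset ℤ) (φ : Fin N → ℤ → β) :
    ∑ a, φ (ix N F a).1 (ix N F a).2 = ∑ n, ∑ m ∈ F, φ n m := by
  rw [Equiv.sum_comp (ix N F) (fun p : Fin N × F => φ p.1 p.2), Fintype.sum_prod_type]
  refine Finset.sum_congr rfl fun n _ => ?_
  exact Finset.sum_coe_sort F (φ n)

/-- the trace of the cube of the Gram matrix -/
lemma tr_cube (h : Data L M u) (hR : 0 < R) (hMR : M < R / 2) (F : Finset ℤ) :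
    π ^ 2 / (3 * L ^ 2) * (Gram (fam R u F) * Gram (fam R u F) * Gram (fam R u F)).trace.re ≤
      ∑ n, ∑ m ∈ F, ((2 * π * m / R) ^ 2 + (π / R) ^ 2 / 3) * ∫ y, ‖vv R (u n) m y‖ ^ 2 := by
  have hL := h.L0
  have hreg : ∀ a, ContDiff ℝ 1 (fam R u F a) ∧ HasCompactSupport (fam R u F a) := fun a =>
    ⟨(vv_reg (h.cd _) (h.cs _) _).1, (vv_reg (h.cd _) (h.cs _) _).2.1⟩
  have hpsd := Gram_psd (fam R u F) (fun a => (hreg a).1.continuous) (fun a => (hreg a).2)
  have h1 := mat (fun a => (ix N F a).2) (Gram (fam R u F)) hpsd (L / R) (π ^ 2 / (3 * L ^ 2))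
    (fun m : F => (2 * π * ((m : ℤ) : ℝ) / R) ^ 2 + (π / R) ^ 2 / 3) (by positivity) ?_ ?_
  · refine h1.trans (le_of_eq ?_)
    have h2 : ∀ a, (Gram (fam R u F) a a).re = ∫ y, ‖fam R u F a y‖ ^ 2 := by
      intro a
      have : Gram (fam R u F) a a = ((∫ y, ‖fam R u F a y‖ ^ 2 : ℝ) : ℂ) := by
        rw [← integral_complex_ofReal]
        show ∫ y, fam R u F a y * starRingEnd ℂ (fam R u F a y) = _
        congr 1
        funext y
        push_cast
        exact Complex.mul_conj' _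
      rw [this, Complex.ofReal_re]
    simp only [h2]
    exact sum_ix F fun n m => ((2 * π * (m : ℝ) / R) ^ 2 + (π / R) ^ 2 / 3) *
      ∫ y, ‖vv R (u n) m y‖ ^ 2
  · intro m c hc
    rw [gram_form _ (fun a => (hreg a).1.continuous) (fun a => (hreg a).2), Complex.ofReal_re]
    have h3 : ∀ y, ∑ a, star (c a) * fam R u F a y =
        ∑ n, star (c ((ix N F).symm (n, m))) * vv R (u n) m y := by
      intro y
      have e1 : ∑ a, star (c a) * fam R u F a y =
          ∑ p : Fin N × F, star (c ((ix N F).symm p)) * vv R (u p.1) p.2 y := by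
        rw [← Equiv.sum_comp (ix N F)]
        refine Finset.sum_congr rfl fun a _ => ?_
        rw [Equiv.symm_apply_apply]
        rfl
      rw [e1, Fintype.sum_prod_type]
      refine Finset.sum_congr rfl fun n _ => ?_
      rw [Finset.sum_eq_single m]
      · intro m' _ hm'
        rw [hc _ (by simpa using hm'), star_zero, zero_mul]
      · intro h; exact absurd (Finset.mem_univ _) h
    simp only [h3]
    refine (block h hR hMR m _).trans ?_
    refine mul_le_mul_of_nonneg_left ?_ (by positivity)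
    simp only [norm_star]
    have e2 : ∑ i, ‖c i‖ ^ 2 = ∑ n, ∑ m' : F, ‖c ((ix N F).symm (n, m'))‖ ^ 2 := by
      rw [← Fintype.sum_prod_type (f := fun p : Fin N × F => ‖c ((ix N F).symm p)‖ ^ 2),
        Equiv.sum_comp (ix N F).symm (fun a => ‖c a‖ ^ 2)]
    rw [e2]
    refine Finset.sum_le_sum fun n _ => ?_
    exact Finset.single_le_sum (f := fun m' : F => ‖c ((ix N F).symm (n, m'))‖ ^ 2)
      (fun _ _ => by positivity) (Finset.mem_univ m)
  · intro q hq0 hq1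
    have h4 := bath hL hR F (fun m => if hm : m ∈ F then q ⟨m, hm⟩ else 0)
      (fun m hm => by simp only [hm, dif_pos]; exact hq0 _)
      (fun m hm => by simp only [hm, dif_pos]; exact hq1 _)
    have e3 : ∑ m ∈ F, (if hm : m ∈ F then q ⟨m, hm⟩ else 0) = ∑ m, q m := by
      rw [← Finset.sum_coe_sort F]
      refine Finset.sum_congr rfl fun m _ => ?_
      rw [dif_pos m.2]
    have e4 : ∑ m ∈ F, ((2 * π * (m : ℝ) / R) ^ 2 + (π / R) ^ 2 / 3) *
        (if hm : m ∈ F then q ⟨m, hm⟩ else 0) =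
        ∑ m : F, ((2 * π * ((m : ℤ) : ℝ) / R) ^ 2 + (π / R) ^ 2 / 3) * q m := by
      rw [← Finset.sum_coe_sort F]
      refine Finset.sum_congr rfl fun m _ => ?_
      rw [dif_pos m.2]
    rw [e3, e4] at h4
    exact h4

/-- the inequality for a finite set of frequencies -/
lemma step1 (h : Data L M u) (hR : 0 < R) (hMR : M < R / 2) (F : Finset ℤ)
    (A : (Fin k → ℝ) → (Fin k → ℝ)) (hA : Measurable A) (W : (Fin k → ℝ) → ℝ≥0∞)
    (hW : Measurable W) :
    ∫⁻ y, W y * ∑ n, ∑ m ∈ F, ‖vv R (u n) m y‖ₑ ^ 2 ≤ Tmag (lift A) u +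
      (ENNReal.ofReal ((π / R) ^ 2 / 3) * (∑ n, ∫⁻ z, ‖u n z‖ₑ ^ 2) +
        ENNReal.ofReal (L / π * cc k) * ∫⁻ y, W y ^ (((k : ℝ) + 3) / 2)) := by
  have hL := h.L0
  have hpi := pi_pos
  have hreg : ∀ n m, ContDiff ℝ 1 (vv R (u n) m) ∧ HasCompactSupport (vv R (u n) m) := fun n m =>
    ⟨(vv_reg (h.cd n) (h.cs n) m).1, (vv_reg (h.cd n) (h.cs n) m).2.1⟩
  have h1 := PP_scale (a := π / L) (by positivity) (fam R u F) A W (fun a => (hreg _ _).1)
    (fun a => (hreg _ _).2) hA hW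
  have e1 : ∀ y, rho (fam R u F) y = ∑ n, ∑ m ∈ F, ‖vv R (u n) m y‖ₑ ^ 2 := fun y =>
    sum_ix F fun n m => ‖vv R (u n) m y‖ₑ ^ 2
  have e2 : Tmag A (fam R u F) = ∑ n, ∑ m ∈ F, ∫⁻ y, eT A (vv R (u n) m) y :=
    sum_ix F fun n m => ∫⁻ y, eT A (vv R (u n) m) y
  simp only [e1] at h1
  rw [e2, inv_div] at h1
  refine h1.trans ?_
  rw [← add_assoc, ← add_assoc]
  refine add_le_add ?_ le_rfl
  have h2 : ENNReal.ofReal ((π / L) ^ 2 / 3 *
      (Gram (fam R u F) * Gram (fam R u F) * Gram (fam R u F)).trace.re) ≤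
      (∑ n, ∑ m ∈ F, ENNReal.ofReal ((2 * π * m / R) ^ 2) * ∫⁻ y, ‖vv R (u n) m y‖ₑ ^ 2) +
      ENNReal.ofReal ((π / R) ^ 2 / 3) * ∑ n, ∑ m ∈ F, ∫⁻ y, ‖vv R (u n) m y‖ₑ ^ 2 := by
    have h3 := tr_cube h hR hMR F
    have e3 : (π / L) ^ 2 / 3 = π ^ 2 / (3 * L ^ 2) := by ring
    rw [e3]
    refine (ENNReal.ofReal_le_ofReal h3).trans (le_of_eq ?_)
    rw [ENNReal.ofReal_sum_of_nonneg fun n _ => Finset.sum_nonneg fun m _ =>
      mul_nonneg (by positivity) (integral_nonneg fun y => by positivity), Finset.mul_sum,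
      ← Finset.sum_add_distrib]
    refine Finset.sum_congr rfl fun n _ => ?_
    rw [ENNReal.ofReal_sum_of_nonneg fun m _ =>
      mul_nonneg (by positivity) (integral_nonneg fun y => by positivity), Finset.mul_sum,
      ← Finset.sum_add_distrib]
    refine Finset.sum_congr rfl fun m _ => ?_
    rw [ENNReal.ofReal_mul (by positivity), lint_sq (int_sq_of_cc (hreg n m).1.continuous
      (hreg n m).2), ENNReal.ofReal_add (by positivity) (by positivity), add_mul]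
  have hm1 : ∀ n m, Measurable fun y => ‖vv R (u n) m y‖ₑ ^ 2 := fun n m =>
    ((hreg n m).1.continuous.enorm.measurable).pow_const 2
  have h4 : ∑ n, ∑ m ∈ F, ∫⁻ y, ‖vv R (u n) m y‖ₑ ^ 2 ≤ ∑ n, ∫⁻ z, ‖u n z‖ₑ ^ 2 := by
    refine Finset.sum_le_sum fun n _ => ?_
    rw [← lintegral_finsetSum _ fun m _ => hm1 n m,
      ← lint_cons' (f := fun z => ‖u n z‖ₑ ^ 2) ((h.cd n).continuous.enorm.measurable.pow_const 2)]
    refine lintegral_mono fun y => ?_
    exact bes hR ((h.cd n).continuous.comp (cont_cons y))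
      (fun x hx => h.bd n _ (by simpa using (hMR.le.trans hx))) F
  have h5 : (∑ n, ∑ m ∈ F, ∫⁻ y, eT A (vv R (u n) m) y) +
      ∑ n, ∑ m ∈ F, ENNReal.ofReal ((2 * π * m / R) ^ 2) * ∫⁻ y, ‖vv R (u n) m y‖ₑ ^ 2 ≤
      Tmag (lift A) u := by
    unfold Tmag
    rw [← Finset.sum_add_distrib]
    refine Finset.sum_le_sum fun n _ => ?_
    rw [← Finset.sum_add_distrib, ← lint_cons' (f := eT (lift A) (u n))
      (eT_meas (lift_meas hA) (h.cd n))]
    have e4 : ∀ m : ℤ, (∫⁻ y, eT A (vv R (u n) m) y) +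
        ENNReal.ofReal ((2 * π * m / R) ^ 2) * ∫⁻ y, ‖vv R (u n) m y‖ₑ ^ 2 =
        ∫⁻ y, (eT A (vv R (u n) m) y + ENNReal.ofReal ((2 * π * m / R) ^ 2) *
          ‖vv R (u n) m y‖ₑ ^ 2) := by
      intro m
      rw [lintegral_add_left (eT_meas hA (hreg n m).1), lintegral_const_mul' _ _
        ENNReal.ofReal_ne_top]
    simp only [e4]
    have hm3 : ∀ m : ℤ, Measurable fun y => eT A (vv R (u n) m) y +
        ENNReal.ofReal ((2 * π * m / R) ^ 2) * ‖vv R (u n) m y‖ₑ ^ 2 := fun m =>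
      (eT_meas hA (hreg n m).1).add ((hm1 n m).const_mul _)
    rw [← lintegral_finsetSum _ fun m _ => hm3 m]
    refine lintegral_mono fun y => ?_
    exact vv_bound hR (h.cd n) (h.cs n) hMR (h.bd n) A F y
  calc _ ≤ (∑ n, ∑ m ∈ F, ∫⁻ y, eT A (vv R (u n) m) y) +
        ((∑ n, ∑ m ∈ F, ENNReal.ofReal ((2 * π * m / R) ^ 2) * ∫⁻ y, ‖vv R (u n) m y‖ₑ ^ 2) +
          ENNReal.ofReal ((π / R) ^ 2 / 3) * ∑ n, ∑ m ∈ F, ∫⁻ y, ‖vv R (u n) m y‖ₑ ^ 2) :=
        add_le_add le_rfl h2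
    _ ≤ _ := by
        rw [← add_assoc]
        refine add_le_add h5 ?_
        gcongr

/-- all frequencies -/
lemma step2 (h : Data L M u) (hR : 0 < R) (hMR : M < R / 2)
    (A : (Fin k → ℝ) → (Fin k → ℝ)) (hA : Measurable A) (W : (Fin k → ℝ) → ℝ≥0∞)
    (hW : Measurable W) (hWt : ∀ y, W y ≠ ⊤) :
    ∫⁻ y, W y * ∫⁻ x, rho u (Fin.cons x y : Fin (k + 1) → ℝ) ≤ Tmag (lift A) u +
      (ENNReal.ofReal ((π / R) ^ 2 / 3) * (∑ n, ∫⁻ z, ‖u n z‖ₑ ^ 2) +
        ENNReal.ofReal (L / π * cc k) * ∫⁻ y, W y ^ (((k : ℝ) + 3) / 2)) := by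
  have hreg : ∀ n m, ContDiff ℝ 1 (vv R (u n) m) ∧ HasCompactSupport (vv R (u n) m) := fun n m =>
    ⟨(vv_reg (h.cd n) (h.cs n) m).1, (vv_reg (h.cd n) (h.cs n) m).2.1⟩
  have hlim : ∀ y, Tendsto (fun K : ℕ => W y * ∑ n, ∑ m ∈ Finset.Icc (-(K : ℤ)) K,
      ‖vv R (u n) m y‖ₑ ^ 2) atTop (𝓝 (W y * ∫⁻ x, rho u (Fin.cons x y : Fin (k + 1) → ℝ))) := by
    intro y
    refine ENNReal.Tendsto.const_mul ?_ (Or.inr (hWt y))
    have e1 : ∫⁻ x, rho u (Fin.cons x y : Fin (k + 1) → ℝ) =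
        ∑ n, ∫⁻ x, ‖u n (Fin.cons x y : Fin (k + 1) → ℝ)‖ₑ ^ 2 := by
      unfold rho
      exact lintegral_finsetSum _ fun n _ =>
        (((h.cd n).continuous.comp (cont_cons y)).enorm.measurable).pow_const 2
    rw [e1]
    refine tendsto_finsetSum _ fun n _ => ?_
    exact pars_lim hR ((h.cd n).continuous.comp (cont_cons y))
      (fun x hx => h.bd n _ (by simpa using (hMR.le.trans hx)))
  calc ∫⁻ y, W y * ∫⁻ x, rho u (Fin.cons x y : Fin (k + 1) → ℝ) =
      ∫⁻ y, liminf (fun K : ℕ => W y * ∑ n, ∑ m ∈ Finset.Icc (-(K : ℤ)) K,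
        ‖vv R (u n) m y‖ₑ ^ 2) atTop := lintegral_congr fun y => (hlim y).liminf_eq.symm
    _ ≤ liminf (fun K : ℕ => ∫⁻ y, W y * ∑ n, ∑ m ∈ Finset.Icc (-(K : ℤ)) K,
        ‖vv R (u n) m y‖ₑ ^ 2) atTop := by
        refine lintegral_liminf_le fun K => ?_
        refine hW.mul ?_
        refine Finset.measurable_fun_sum _ fun n _ => Finset.measurable_fun_sum _ fun m _ => ?_
        exact ((hreg n m).1.continuous.enorm.measurable).pow_const 2
    _ ≤ _ := by
        refine liminf_le_of_frequently_le' (Frequently.of_forall fun K => ?_)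
        exact step1 h hR hMR _ A hA W hW

/-- the limit of a large circle -/
lemma step3 (h : Data L M u)
    (A : (Fin k → ℝ) → (Fin k → ℝ)) (hA : Measurable A) (W : (Fin k → ℝ) → ℝ≥0∞)
    (hW : Measurable W) (hWt : ∀ y, W y ≠ ⊤) :
    ∫⁻ y, W y * ∫⁻ x, rho u (Fin.cons x y : Fin (k + 1) → ℝ) ≤ Tmag (lift A) u +
        ENNReal.ofReal (L / π * cc k) * ∫⁻ y, W y ^ (((k : ℝ) + 3) / 2) := by
  have hM := h.M0
  obtain ⟨S, hS⟩ : ∃ S, S = ∑ n, ∫⁻ z, ‖u n z‖ₑ ^ 2 := ⟨_, rfl⟩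
  have hSt : S ≠ ⊤ := by
    rw [hS]
    refine ENNReal.sum_ne_top.2 fun n _ => ?_
    rw [← lint_sq (int_sq_of_cc (h.cd n).continuous (h.cs n))]
    exact ENNReal.ofReal_ne_top
  have h1 : Tendsto (fun j : ℕ => Tmag (lift A) u +
      (ENNReal.ofReal ((π / (2 * M + 1 + j)) ^ 2 / 3) * S +
        ENNReal.ofReal (L / π * cc k) * ∫⁻ y, W y ^ (((k : ℝ) + 3) / 2))) atTop
      (𝓝 (Tmag (lift A) u + (0 * S +
        ENNReal.ofReal (L / π * cc k) * ∫⁻ y, W y ^ (((k : ℝ) + 3) / 2)))) := by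
    refine Tendsto.const_add _ (Tendsto.add_const _ ?_)
    refine ENNReal.Tendsto.mul_const ?_ (Or.inr hSt)
    rw [← ENNReal.ofReal_zero]
    refine (ENNReal.continuous_ofReal.tendsto _).comp ?_
    have h2 : Tendsto (fun j : ℕ => 2 * M + 1 + (j : ℝ)) atTop atTop :=
      tendsto_atTop_add_const_left _ _ tendsto_natCast_atTop_atTop
    have h3 := (h2.const_div_atTop π).pow 2 |>.div_const 3
    simpa using h3
  rw [zero_mul, zero_add] at h1
  refine ge_of_tendsto' h1 fun j => ?_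
  rw [hS]
  exact step2 h (R := 2 * M + 1 + j) (by positivity) (by
    have : (0:ℝ) ≤ j := Nat.cast_nonneg j
    linarith) A hA W hW hWt

end

lemma Lcl_pos {d : ℕ} : 0 < Lcl 1 d := by
  unfold Lcl
  have h1 : 0 < Gamma (1 + 1 : ℝ) := Gamma_pos_of_pos (by norm_num)
  have h2 : 0 < Gamma (1 + 1 + (d : ℝ) / 2) := Gamma_pos_of_pos (by positivity)
  have := pi_pos
  positivity

/-- the inequality for the density integrated over the first variable -/
theorem red {k N : ℕ} {L : ℝ} (hL : 0 < L) {u : Fin N → (Fin (k + 1) → ℝ) → ℂ}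
    (hu : ∀ n, ContDiff ℝ 1 (u n)) (hc : ∀ n, HasCompactSupport (u n))
    (hv : ∀ y : Fin k → ℝ, volume {x : ℝ | ∃ n, u n (Fin.cons x y : Fin (k + 1) → ℝ) ≠ 0} ≤
      ENNReal.ofReal L)
    (hG : ∀ c : Fin N → ℂ, ∫ x, ‖∑ i, c i * u i x‖ ^ 2 ≤ ∑ i, ‖c i‖ ^ 2)
    {A : (Fin k → ℝ) → (Fin k → ℝ)} (hA : Measurable A) :
    ENNReal.ofReal (L ^ (-(2 / ((k + 1 : ℕ) : ℝ))) * Kcl (k + 1)) *
      ∫⁻ y : Fin k → ℝ, (∫⁻ x : ℝ, rho u (Fin.cons x y : Fin (k + 1) → ℝ)) ^
        (1 + 2 / ((k + 1 : ℕ) : ℝ)) ≤ Tmag (lift A) u := by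
  have hd : 1 ≤ k + 1 := by omega
  obtain ⟨M, hM0, hM⟩ : ∃ M : ℝ, 0 < M ∧ ∀ n z, M ≤ ‖z‖ → u n z = 0 := by
    have h1 : ∀ n, ∃ M : ℝ, ∀ z, M < ‖z‖ → u n z = 0 := by
      intro n
      obtain ⟨M, hM⟩ := (hc n).isCompact.isBounded.exists_norm_le
      exact ⟨M, fun z hz => image_eq_zero_of_notMem_tsupport
        fun h => absurd (hM z h) (not_le.2 hz)⟩
    choose M hM using h1
    refine ⟨∑ n, |M n| + 1, by positivity, fun n z hz => hM n z ?_⟩
    have h2 : |M n| ≤ ∑ n, |M n| :=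
      Finset.single_le_sum (f := fun n => |M n|) (fun _ _ => abs_nonneg _) (Finset.mem_univ n)
    have := le_abs_self (M n)
    linarith
  have hx : ∀ z : Fin (k + 1) → ℝ, |z 0| ≤ ‖z‖ := fun z => norm_le_pi_norm z 0
  have hdat : Data L M u := ⟨hu, hc, hL, hM0, fun n z hz => hM n z (hz.trans (hx z)), hv, hG⟩
  have hrm : Measurable (rho u) := rho_meas hu
  obtain ⟨ρ, hρ⟩ : ∃ ρ : (Fin k → ℝ) → ℝ≥0∞, ρ = fun y =>
    ∫⁻ x : ℝ, rho u (Fin.cons x y : Fin (k + 1) → ℝ) := ⟨_, rfl⟩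
  have hρm : Measurable ρ := by
    rw [hρ]
    exact (cons_meas hrm).lintegral_prod_left'
  -- the reduced density is bounded with compact support
  obtain ⟨C, hC, hCr⟩ : ∃ C : ℝ≥0∞, C ≠ ⊤ ∧ ∀ z, rho u z ≤ C := by
    have hb : ∀ i, ∃ C : ℝ, ∀ x, ‖u i x‖ ≤ C := fun i =>
      (hc i).exists_bound_of_continuous (hu i).continuous
    choose C hC using hb
    refine ⟨∑ i, ENNReal.ofReal (C i) ^ 2, ENNReal.sum_ne_top.2 fun i _ =>
      ENNReal.pow_ne_top ENNReal.ofReal_ne_top, fun z => ?_⟩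
    unfold rho
    refine Finset.sum_le_sum fun i _ => ?_
    gcongr
    rw [← ofReal_norm]
    exact ENNReal.ofReal_le_ofReal (hC i z)
  have hρC : ∀ y, ρ y ≤ C * ENNReal.ofReal L := by
    intro y
    rw [hρ]
    obtain ⟨S, hS⟩ : ∃ S : Set ℝ, S = {x : ℝ | ∃ n, u n (Fin.cons x y : Fin (k + 1) → ℝ) ≠ 0} :=
      ⟨_, rfl⟩
    have hSm : MeasurableSet S := by
      have : S = ⋃ n, {x : ℝ | u n (Fin.cons x y : Fin (k + 1) → ℝ) ≠ 0} := by
        rw [hS]; ext x; simp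
      rw [this]
      exact MeasurableSet.iUnion fun n => (isOpen_ne_fun ((hu n).continuous.comp (cont_cons y))
        continuous_const).measurableSet
    have h1 : ∀ x, rho u (Fin.cons x y : Fin (k + 1) → ℝ) ≤ S.indicator (fun _ => C) x := by
      intro x
      by_cases hx : x ∈ S
      · rw [indicator_of_mem hx]; exact hCr _
      · rw [indicator_of_notMem hx]
        refine le_of_eq ?_
        unfold rho
        refine Finset.sum_eq_zero fun n _ => ?_
        have : u n (Fin.cons x y : Fin (k + 1) → ℝ) = 0 := by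
          by_contra h
          exact hx (by rw [hS]; exact ⟨n, h⟩)
        rw [this]; simp
    refine (lintegral_mono h1).trans ?_
    rw [lintegral_indicator hSm, setLIntegral_const]
    gcongr
    rw [hS]; exact hv y
  have hρt : ∀ y, ρ y ≠ ⊤ := fun y =>
    ne_top_of_le_ne_top (ENNReal.mul_ne_top hC ENNReal.ofReal_ne_top) (hρC y)
  have hρ0 : ∀ y : Fin k → ℝ, M < ‖y‖ → ρ y = 0 := by
    intro y hy
    rw [hρ]
    have : ∀ x : ℝ, rho u (Fin.cons x y : Fin (k + 1) → ℝ) = 0 := by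
      intro x
      unfold rho
      refine Finset.sum_eq_zero fun n _ => ?_
      have h2 : ‖y‖ ≤ ‖(Fin.cons x y : Fin (k + 1) → ℝ)‖ := by
        refine (pi_norm_le_iff_of_nonneg (norm_nonneg _)).2 fun j => ?_
        have := norm_le_pi_norm (Fin.cons x y : Fin (k + 1) → ℝ) j.succ
        simpa using this
      rw [hM n _ (hy.le.trans h2)]; simp
    simp only [this, lintegral_zero]
  have hfin : ∫⁻ y, ρ y ^ (1 + 2 / ((k + 1 : ℕ) : ℝ)) ≠ ⊤ := by
    have h1 : ∀ y, ρ y ^ (1 + 2 / ((k + 1 : ℕ) : ℝ)) ≤ (Metric.closedBall (0 : Fin k → ℝ) M).indicator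
        (fun _ => (C * ENNReal.ofReal L) ^ (1 + 2 / ((k + 1 : ℕ) : ℝ))) y := by
      intro y
      by_cases hy : y ∈ Metric.closedBall (0 : Fin k → ℝ) M
      · rw [indicator_of_mem hy]
        exact ENNReal.rpow_le_rpow (hρC y) (by positivity)
      · rw [indicator_of_notMem hy]
        rw [mem_closedBall_zero_iff, not_le] at hy
        rw [hρ0 y hy, ENNReal.zero_rpow_of_pos (by positivity)]
    refine ne_top_of_le_ne_top ?_ (lintegral_mono h1)
    rw [lintegral_indicator measurableSet_closedBall, setLIntegral_const]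
    refine ENNReal.mul_ne_top ?_ (isCompact_closedBall _ _).measure_lt_top.ne
    exact ENNReal.rpow_ne_top_of_nonneg (by positivity)
      (ENNReal.mul_ne_top hC ENNReal.ofReal_ne_top)
  have hconst : L / π * cc k = L * Lcl 1 (k + 1) := by
    have h1 := const_QQ k
    have hpi := pi_pos
    have h3 : (0:ℝ) < √3 := Real.sqrt_pos.2 (by norm_num)
    have h4 : Lcl 1 (k + 1) = cc k / π := by
      have h5 : √3 / 2 * (2 / (√3 * π) * cc k) = √3 / 2 * (2 / √3 * Lcl 1 (k + 1)) := by rw [h1]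
      field_simp at h5
      rw [eq_div_iff hpi.ne']
      linarith
    rw [h4]
    ring
  rw [← Kc_Lcl hd, ← Kc_scale hL Lcl_pos hd, ← hconst]
  have hcpos : 0 < L / π * cc k := by
    rw [hconst]; exact mul_pos hL Lcl_pos
  have hfinal := dual (μ := (volume : Measure (Fin k → ℝ))) hd hcpos ρ (Tmag (lift A) u) hfin ?_
  · rw [hρ] at hfinal
    exact hfinal
  · intro t ht
    have hWt : ∀ y, ENNReal.ofReal t * ρ y ^ (2 / ((k + 1 : ℕ) : ℝ)) ≠ ⊤ := fun y =>
      ENNReal.mul_ne_top ENNReal.ofReal_ne_top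
        (ENNReal.rpow_ne_top_of_nonneg (by positivity) (hρt y))
    have h1 := step3 hdat A hA (fun y => ENNReal.ofReal t * ρ y ^ (2 / ((k + 1 : ℕ) : ℝ)))
      (measurable_const.mul (hρm.pow_const _)) hWt
    have h2 : 1 + ((k + 1 : ℕ) : ℝ) / 2 = ((k : ℝ) + 3) / 2 := by
      push_cast
      ring
    rw [h2]
    have h3 : ∀ y, ∫⁻ x : ℝ, rho u (Fin.cons x y : Fin (k + 1) → ℝ) = ρ y := fun y => by rw [hρ]
    simp only [h3] at h1
    exact h1

end Pool.Agent.Y247.LT
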