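import Pool.Agent.Y247.LT.Red2

set_option autoImplicit false

open MeasureTheory Set Real Matrix Filter Topology
open scoped ENNReal ComplexOrder

namespace Pool.Agent.Y247.LT

open Pool.Agent.Helper766.M

/-- the homogeneous form -/
theorem red_hom {k N : ℕ} {L : ℝ} (hL : 0 < L) {u : Fin N → (Fin (k + 1) → ℝ) → ℂ}
    (hu : ∀ n, ContDiff ℝ 1 (u n)) (hc : ∀ n, HasCompactSupport (u n))
    (hv : ∀ y : Fin k → ℝ, volume {x : ℝ | ∃ n, u n (Fin.cons x y : Fin (k + 1) → ℝ) ≠ 0} ≤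
      ENNReal.ofReal L) {Λ : ℝ} (hΛ : 0 < Λ)
    (hG : ∀ c : Fin N → ℂ, ∫ x, ‖∑ i, c i * u i x‖ ^ 2 ≤ Λ * ∑ i, ‖c i‖ ^ 2)
    {A : (Fin k → ℝ) → (Fin k → ℝ)} (hA : Measurable A) :
    ENNReal.ofReal (L ^ (-(2 / ((k + 1 : ℕ) : ℝ))) * Kcl (k + 1)) *
      ∫⁻ y : Fin k → ℝ, (∫⁻ x : ℝ, rho u (Fin.cons x y : Fin (k + 1) → ℝ)) ^
        (1 + 2 / ((k + 1 : ℕ) : ℝ)) ≤
      ENNReal.ofReal (Λ ^ (2 / ((k + 1 : ℕ) : ℝ))) * Tmag (lift A) u := by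
  obtain ⟨d, hd⟩ : ∃ d : ℝ, d = ((k + 1 : ℕ) : ℝ) := ⟨_, rfl⟩
  have hd0 : 0 < d := by rw [hd]; positivity
  obtain ⟨s, hs⟩ : ∃ s : ℝ, s = √(Λ⁻¹) := ⟨_, rfl⟩
  have hs0 : 0 ≤ s := by rw [hs]; exact Real.sqrt_nonneg _
  have hs2 : s ^ 2 = Λ⁻¹ := by rw [hs]; exact Real.sq_sqrt (by positivity)
  have h := red hL (u := fun i x => (s : ℂ) * u i x) (fun i => contDiff_const.mul (hu i))
    (fun i => (hc i).mul_left (f := fun _ => (s : ℂ))) (fun y => by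
      refine (measure_mono ?_).trans (hv y)
      rintro x ⟨n, hn⟩
      exact ⟨n, fun h0 => hn (by simp [h0])⟩) (by
      intro c
      have e : ∀ x, ‖∑ i, c i * ((s : ℂ) * u i x)‖ ^ 2 = s ^ 2 * ‖∑ i, c i * u i x‖ ^ 2 := by
        intro x
        have : ∑ i, c i * ((s : ℂ) * u i x) = (s : ℂ) * ∑ i, c i * u i x := by
          rw [Finset.mul_sum]
          exact Finset.sum_congr rfl fun i _ => by ring
        rw [this, norm_mul, mul_pow, Complex.norm_real, Real.norm_eq_abs, abs_of_nonneg hs0]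
      simp only [e]
      rw [integral_const_mul, hs2]
      calc Λ⁻¹ * ∫ x, ‖∑ i, c i * u i x‖ ^ 2 ≤ Λ⁻¹ * (Λ * ∑ i, ‖c i‖ ^ 2) := by
            gcongr; exact hG c
        _ = ∑ i, ‖c i‖ ^ 2 := by field_simp) hA
  rw [Tmag_smul hs0 _ u hu] at h
  have e0 : ∀ y : Fin k → ℝ, ∫⁻ x : ℝ, rho (fun i x => (s : ℂ) * u i x)
      (Fin.cons x y : Fin (k + 1) → ℝ) =
      ENNReal.ofReal Λ⁻¹ * ∫⁻ x : ℝ, rho u (Fin.cons x y : Fin (k + 1) → ℝ) := by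
    intro y
    rw [← lintegral_const_mul' _ _ ENNReal.ofReal_ne_top]
    refine lintegral_congr fun x => ?_
    rw [rho_smul hs0, hs2]
  rw [← hd] at h ⊢
  have e1 : ∀ y : Fin k → ℝ, (∫⁻ x : ℝ, rho (fun i x => (s : ℂ) * u i x)
      (Fin.cons x y : Fin (k + 1) → ℝ)) ^ (1 + 2 / d) =
      ENNReal.ofReal (Λ⁻¹ ^ (1 + 2 / d)) *
        (∫⁻ x : ℝ, rho u (Fin.cons x y : Fin (k + 1) → ℝ)) ^ (1 + 2 / d) := by
    intro y
    rw [e0, ENNReal.mul_rpow_of_nonneg _ _ (by positivity),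
      ENNReal.ofReal_rpow_of_nonneg (by positivity) (by positivity)]
  simp only [e1] at h
  rw [lintegral_const_mul' _ _ ENNReal.ofReal_ne_top, hs2] at h
  have h2 := mul_le_mul_right h (ENNReal.ofReal (Λ ^ (1 + 2 / d)))
  have e2 : ENNReal.ofReal (Λ ^ (1 + 2 / d)) * ENNReal.ofReal (Λ⁻¹ ^ (1 + 2 / d)) = 1 := by
    rw [← ENNReal.ofReal_mul (by positivity), ← Real.mul_rpow hΛ.le (by positivity),
      mul_inv_cancel₀ hΛ.ne', Real.one_rpow, ENNReal.ofReal_one]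
  have e3 : ENNReal.ofReal (Λ ^ (1 + 2 / d)) * ENNReal.ofReal (Λ⁻¹) =
      ENNReal.ofReal (Λ ^ (2 / d)) := by
    rw [← ENNReal.ofReal_mul (by positivity), Real.rpow_add hΛ, Real.rpow_one]
    congr 1
    field_simp
  obtain ⟨X, hX⟩ : ∃ X, X = ∫⁻ y : Fin k → ℝ, (∫⁻ x : ℝ, rho u (Fin.cons x y : Fin (k + 1) → ℝ)) ^
    (1 + 2 / d) := ⟨_, rfl⟩
  rw [← hX] at h2 ⊢
  calc ENNReal.ofReal (L ^ (-(2 / d)) * Kcl (k + 1)) * X
      = (ENNReal.ofReal (Λ ^ (1 + 2 / d)) * ENNReal.ofReal (Λ⁻¹ ^ (1 + 2 / d))) *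
        (ENNReal.ofReal (L ^ (-(2 / d)) * Kcl (k + 1)) * X) := by rw [e2, one_mul]
    _ = ENNReal.ofReal (Λ ^ (1 + 2 / d)) * (ENNReal.ofReal (L ^ (-(2 / d)) * Kcl (k + 1)) *
        (ENNReal.ofReal (Λ⁻¹ ^ (1 + 2 / d)) * X)) := by ring
    _ ≤ ENNReal.ofReal (Λ ^ (1 + 2 / d)) * (ENNReal.ofReal (Λ⁻¹) * Tmag (lift A) u) := h2
    _ = _ := by rw [← mul_assoc, e3]

end Pool.Agent.Y247.LT
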